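import Mathlib

open Complex Metric Set Filter Topology

namespace Helper70.Koebe

theorem exists_sqrt {q : ℂ → ℂ} (hq : DifferentiableOn ℂ q (ball 0 1))
    (h0 : ∀ z ∈ ball (0:ℂ) 1, q z ≠ 0) (h1 : q 0 = 1) :
    ∃ g : ℂ → ℂ, DifferentiableOn ℂ g (ball 0 1) ∧ g 0 = 1 ∧
      ∀ z ∈ ball (0:ℂ) 1, g z ^ 2 = q z := by
  have hopen : IsOpen (ball (0:ℂ) 1) := isOpen_ball
  have hm0 : (0:ℂ) ∈ ball (0:ℂ) 1 := by simp
  have hd : DifferentiableOn ℂ (fun z => deriv q z / q z) (ball 0 1) :=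
    (hq.deriv hopen).div hq h0
  obtain ⟨L, hL0, hL⟩ := (hd.isExactOn_ball).with_val_at 0 0
  have hLd : DifferentiableOn ℂ L (ball 0 1) := fun z hz =>
    (hL z hz).differentiableAt.differentiableWithinAt
  have hk : ∀ z ∈ ball (0:ℂ) 1, HasDerivAt (fun z => q z * exp (-L z)) 0 z := by
    intro z hz
    have hqz : HasDerivAt q (deriv q z) z :=
      ((hq z hz).differentiableAt (hopen.mem_nhds hz)).hasDerivAt
    have hE : HasDerivAt (fun z => exp (-L z)) (exp (-L z) * -(deriv q z / q z)) z :=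
      ((hL z hz).fun_neg).cexp
    have this : HasDerivAt (fun z => q z * exp (-L z))
      (deriv q z * exp (-L z) + q z * (exp (-L z) * -(deriv q z / q z))) z := hqz.fun_mul hE
    refine this.congr_deriv ?_
    have h5 := h0 z hz
    have h6 : q z * (exp (-L z) * -(deriv q z / q z)) = - (deriv q z * exp (-L z)) := by
      field_simp
    rw [h6]; ring
  have hconst : ∀ z ∈ ball (0:ℂ) 1, q z * exp (-L z) = 1 := by
    intro z hz
    have hpc : IsPreconnected (ball (0:ℂ) 1) := (convex_ball _ _).isPreconnected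
    have hdk : DifferentiableOn ℂ (fun z => q z * exp (-L z)) (ball 0 1) := fun z hz =>
      (hk z hz).differentiableAt.differentiableWithinAt
    have h2 : (ball (0:ℂ) 1).EqOn (deriv (fun z => q z * exp (-L z))) 0 := fun z hz => (hk z hz).deriv
    have := hopen.is_const_of_deriv_eq_zero hpc hdk h2 hz hm0
    simpa [h1, hL0] using this
  refine ⟨fun z => exp (L z / 2), ?_, by simp [hL0], ?_⟩
  · exact (hLd.div_const 2).cexp
  · intro z hz
    have h3 := hconst z hz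
    rw [exp_neg] at h3
    have h4 : exp (L z) ≠ 0 := exp_ne_zero _
    field_simp at h3
    rw [← exp_nat_mul]
    rw [h3]
    congr 1
    push_cast
    ring

/-- Injective holomorphic functions on the unit disc (with nonvanishing derivative). -/
structure Uni (f : ℂ → ℂ) : Prop where
  diff : DifferentiableOn ℂ f (ball 0 1)
  inj : InjOn f (ball 0 1)
  dne : ∀ z ∈ ball (0:ℂ) 1, deriv f z ≠ 0

theorem mem0 : (0:ℂ) ∈ ball (0:ℂ) 1 := by simp

theorem Uni.hasDerivAt {f : ℂ → ℂ} (hf : Uni f) {z : ℂ} (hz : z ∈ ball (0:ℂ) 1) :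
    HasDerivAt f (deriv f z) z :=
  ((hf.diff z hz).differentiableAt (isOpen_ball.mem_nhds hz)).hasDerivAt

theorem sqrt_transform {f : ℂ → ℂ} (hf : Uni f) {a : ℂ} (ha : a ∉ f '' ball 0 1) :
    ∃ g : ℂ → ℂ, Uni g ∧ g 0 = 1 ∧ (∀ z ∈ ball (0:ℂ) 1, g z ^ 2 = (a - f z) / (a - f 0)) ∧
      (∀ z ∈ ball (0:ℂ) 1, deriv g z * (2 * g z) = - deriv f z / (a - f 0)) ∧
      ∀ z ∈ ball (0:ℂ) 1, ∀ w ∈ ball (0:ℂ) 1, g z ≠ - g w := by
  have hne : ∀ z ∈ ball (0:ℂ) 1, a - f z ≠ 0 := by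
    intro z hz h
    apply ha
    exact ⟨z, hz, (sub_eq_zero.1 h).symm⟩
  have hne0 := hne 0 mem0
  obtain ⟨g, hg, hg0, hgs⟩ := exists_sqrt (q := fun z => (a - f z) / (a - f 0))
    ((hf.diff.const_sub a).div_const _) (fun z hz => div_ne_zero (hne z hz) hne0) (div_self hne0)
  have hgne : ∀ z ∈ ball (0:ℂ) 1, g z ≠ 0 := by
    intro z hz h
    have := hgs z hz
    rw [h] at this
    have h2 := div_ne_zero (hne z hz) hne0
    apply h2
    rw [← this]
    simp
  have hder : ∀ z ∈ ball (0:ℂ) 1, deriv g z * (2 * g z) = - deriv f z / (a - f 0) := by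
    intro z hz
    have hgz : HasDerivAt g (deriv g z) z :=
      ((hg z hz).differentiableAt (isOpen_ball.mem_nhds hz)).hasDerivAt
    have h1 : HasDerivAt (fun z => g z ^ 2) ((2:ℕ) * g z ^ (2-1) * deriv g z) z := hgz.fun_pow 2
    have h2 : HasDerivAt (fun z => (a - f z) / (a - f 0)) (- deriv f z / (a - f 0)) z :=
      ((hf.hasDerivAt hz).const_sub a).div_const _
    have h3 : (fun z => g z ^ 2) =ᶠ[𝓝 z] (fun z => (a - f z) / (a - f 0)) := by
      filter_upwards [isOpen_ball.mem_nhds hz] with w hw using hgs w hw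
    have h4 := (h2.congr_of_eventuallyEq h3).unique h1
    rw [h4]
    push_cast
    ring
  have hsq : ∀ z ∈ ball (0:ℂ) 1, ∀ w ∈ ball (0:ℂ) 1, g z ^ 2 = g w ^ 2 → z = w := by
    intro z hz w hw h
    rw [hgs z hz, hgs w hw] at h
    have h2 : a - f z = a - f w := by
      field_simp at h
      exact h
    exact hf.inj hz hw (by linear_combination -h2)
  refine ⟨g, ⟨hg, fun z hz w hw h => hsq z hz w hw (by rw [h]), ?_⟩, hg0, hgs, hder, ?_⟩
  · intro z hz h
    have h1 := hder z hz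
    rw [h, zero_mul] at h1
    have h2 := div_ne_zero (neg_ne_zero.2 (hf.dne z hz)) hne0
    exact h2 h1.symm
  · intro z hz w hw h
    have := hsq z hz w hw (by rw [h]; ring)
    subst this
    apply hgne z hz
    have h2 : 2 * g z = 0 := by linear_combination h
    simpa using h2

/-- bounded class -/
structure KC (M : ℝ) (f : ℂ → ℂ) : Prop extends Uni f where
  bdd : ∀ z ∈ ball (0:ℂ) 1, ‖f z - f 0‖ ≤ M * ‖deriv f 0‖

def P (M T : ℝ) : Prop := ∀ f, KC M f → ∀ a, a ∉ f '' ball (0:ℂ) 1 → T * ‖deriv f 0‖ ≤ ‖a - f 0‖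

/-- Cauchy estimate on the unit ball -/
theorem norm_deriv_le {h : ℂ → ℂ} (hd : DifferentiableOn ℂ h (ball 0 1)) {C : ℝ}
    (hC : ∀ z ∈ ball (0:ℂ) 1, ‖h z‖ ≤ C) : ‖deriv h 0‖ ≤ C := by
  have key : ∀ R : ℝ, 0 < R → R < 1 → ‖deriv h 0‖ ≤ C / R := by
    intro R hR hR1
    have hcl : closedBall (0:ℂ) R ⊆ ball 0 1 := closedBall_subset_ball hR1
    apply Complex.norm_deriv_le_of_forall_mem_sphere_norm_le hR
    · exact (hd.mono hcl).diffContOnCl_ball le_rfl
    · intro z hz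
      exact hC z (hcl (sphere_subset_closedBall hz))
  have hlim : Tendsto (fun R : ℝ => C / R) (𝓝[<] 1) (𝓝 (C / 1)) := by
    apply Tendsto.mono_left _ nhdsWithin_le_nhds
    exact tendsto_const_nhds.div tendsto_id one_ne_zero
  rw [div_one] at hlim
  apply ge_of_tendsto hlim
  have h1 : ∀ᶠ R : ℝ in 𝓝[<] 1, R < 1 := eventually_mem_nhdsWithin
  have h2 : ∀ᶠ R : ℝ in 𝓝[<] 1, 0 < R := by
    apply nhdsWithin_le_nhds
    exact lt_mem_nhds (by norm_num)
  filter_upwards [h1, h2] with R hR1 hR0 using key R hR0 hR1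


theorem KC.norm_sq_le {M : ℝ} {f : ℂ → ℂ} (hf : KC M f) {a : ℂ} (hA : 0 < ‖a - f 0‖)
    {g : ℂ → ℂ} (hg : ∀ z ∈ ball (0:ℂ) 1, g z ^ 2 = (a - f z) / (a - f 0)) :
    ∀ z ∈ ball (0:ℂ) 1, ‖g z‖ ^ 2 ≤ 1 + M * (‖deriv f 0‖ / ‖a - f 0‖) := by
  intro z hz
  rw [← norm_pow, hg z hz, norm_div, div_le_iff₀ hA]
  have h1 : a - f z = (a - f 0) - (f z - f 0) := by ring
  calc ‖a - f z‖ = ‖(a - f 0) - (f z - f 0)‖ := by rw [h1]
    _ ≤ ‖a - f 0‖ + ‖f z - f 0‖ := norm_sub_le _ _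
    _ ≤ ‖a - f 0‖ + M * ‖deriv f 0‖ := by gcongr; exact hf.bdd z hz
    _ = _ := by field_simp

theorem P_base {M : ℝ} (hM : 1 ≤ M) : P M (1 / (4 * (M + 1))) := by
  intro f hf a ha
  have hA0 : a - f 0 ≠ 0 := by
    intro h
    exact ha ⟨0, mem0, (sub_eq_zero.1 h).symm⟩
  have hA : 0 < ‖a - f 0‖ := norm_pos_iff.2 hA0
  have hD : 0 < ‖deriv f 0‖ := norm_pos_iff.2 (hf.dne 0 mem0)
  obtain ⟨g, hgU, hg0, hgs, hder, -⟩ := sqrt_transform hf.toUni ha
  have hgb := hf.norm_sq_le hA hgs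
  set s := ‖deriv f 0‖ / ‖a - f 0‖ with hs
  have hs0 : 0 < s := div_pos hD hA
  have h1 : ‖deriv g 0‖ = s / 2 := by
    have := hder 0 mem0
    rw [hg0] at this
    have h2 : deriv g 0 = - deriv f 0 / (a - f 0) / 2 := by rw [← this]; ring
    rw [h2, norm_div, norm_div, norm_neg, hs]
    simp
  have h3 : ‖deriv g 0‖ ≤ Real.sqrt (1 + M * s) := by
    apply norm_deriv_le hgU.diff
    intro z hz
    exact Real.le_sqrt_of_sq_le (hgb z hz)
  rw [h1] at h3
  have h4 : (s / 2) ^ 2 ≤ 1 + M * s := by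
    have := (Real.le_sqrt (by positivity) (by positivity)).1 h3
    exact this
  have h5 : s ≤ 4 * (M + 1) := by
    by_contra hcon
    push Not at hcon
    nlinarith
  rw [hs, div_le_iff₀ hA] at h5
  rw [div_mul_eq_mul_div, div_le_iff₀ (by positivity), one_mul]
  linarith

theorem P_step {M T : ℝ} (hM : 1 ≤ M) (hT0 : 0 < T) (hT1 : T ≤ 1 / 16) (hP : P M T)
    {f : ℂ → ℂ} (hf : KC M f) {a : ℂ} (ha : a ∉ f '' ball 0 1) :
    T * ‖deriv f 0‖ ^ 2 ≤ 16 * ‖a - f 0‖ ^ 2 := by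
  have hA0 : a - f 0 ≠ 0 := by
    intro h
    exact ha ⟨0, mem0, (sub_eq_zero.1 h).symm⟩
  have hA : 0 < ‖a - f 0‖ := norm_pos_iff.2 hA0
  have hD : 0 < ‖deriv f 0‖ := norm_pos_iff.2 (hf.dne 0 mem0)
  by_cases hc : ‖deriv f 0‖ ≤ 16 * ‖a - f 0‖
  · have : ‖deriv f 0‖ ^ 2 ≤ (16 * ‖a - f 0‖) ^ 2 := by gcongr
    nlinarith [sq_nonneg ‖deriv f 0‖]
  push Not at hc
  obtain ⟨g, hgU, hg0, hgs, hder, hgneg⟩ := sqrt_transform hf.toUni ha
  have hgb := hf.norm_sq_le hA hgs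
  set s := ‖deriv f 0‖ / ‖a - f 0‖ with hs
  have hs0 : 0 < s := div_pos hD hA
  have hs16 : 16 < s := by rw [hs, lt_div_iff₀ hA]; exact hc
  have h1 : ‖deriv g 0‖ = s / 2 := by
    have := hder 0 mem0
    rw [hg0] at this
    have h2 : deriv g 0 = - deriv f 0 / (a - f 0) / 2 := by rw [← this]; ring
    rw [h2, norm_div, norm_div, norm_neg, hs]
    simp
  have hgK : KC M g := by
    refine ⟨hgU, ?_⟩
    intro z hz
    rw [h1, hg0]
    have ht : 16 ≤ M * s := by nlinarith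
    have h2 : ‖g z‖ ≤ M * s / 2 - 1 := by
      apply le_of_sq_le_sq _ (by linarith)
      · refine (hgb z hz).trans ?_
        nlinarith
    calc ‖g z - 1‖ ≤ ‖g z‖ + ‖(1:ℂ)‖ := norm_sub_le _ _
      _ ≤ M * s / 2 - 1 + 1 := by rw [norm_one]; linarith
      _ = M * (s / 2) := by ring
  have hδ : 0 < T * (s / 2) := by positivity
  have h2 : ∀ z ∈ ball (0:ℂ) 1, T * (s / 2) ≤ ‖1 + g z‖ := by
    intro z hz
    have hnot : -g z ∉ g '' ball 0 1 := by
      rintro ⟨w, hw, hwz⟩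
      exact hgneg w hw z hz hwz
    have := hP g hgK _ hnot
    rw [h1, hg0] at this
    refine this.trans (le_of_eq ?_)
    rw [← norm_neg]
    congr 1
    ring
  have hne : ∀ z ∈ ball (0:ℂ) 1, 1 + g z ≠ 0 := by
    intro z hz h
    have := h2 z hz
    rw [h, norm_zero] at this
    linarith
  have h3 : ‖deriv (fun z => (1 + g z)⁻¹) 0‖ ≤ 1 / (T * (s / 2)) := by
    apply norm_deriv_le
    · exact (hgU.diff.const_add 1).inv hne
    · intro z hz
      rw [norm_inv, ← one_div]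
      apply one_div_le_one_div_of_le hδ (h2 z hz)
  have h4 : deriv (fun z => (1 + g z)⁻¹) 0 = - deriv g 0 / 4 := by
    have hgd : HasDerivAt (fun z => 1 + g z) (deriv g 0) 0 := (hgU.hasDerivAt mem0).const_add 1
    have := hgd.fun_inv (hne 0 mem0)
    rw [this.deriv, hg0]
    norm_num
  rw [h4, norm_div, norm_neg, h1] at h3
  have h5 : T * s ^ 2 ≤ 16 := by
    rw [le_div_iff₀ hδ] at h3
    norm_num at h3
    nlinarith
  rw [hs, div_pow, ← mul_div_assoc, div_le_iff₀ (by positivity)] at h5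
  exact h5

theorem koebe_bdd {M : ℝ} (hM : 3 ≤ M) : P M (1 / 16) := by
  set S : Set ℝ := {T | 0 ≤ T ∧ T ≤ 1 / 16 ∧ P M T} with hS
  have hbdd : BddAbove S := ⟨1 / 16, fun T hT => hT.2.1⟩
  have hT0 : (1 / (4 * (M + 1))) ∈ S := by
    refine ⟨by positivity, ?_, P_base (by linarith)⟩
    apply one_div_le_one_div_of_le (by norm_num)
    linarith
  have hne : S.Nonempty := ⟨_, hT0⟩
  set T := sSup S with hT
  have hTpos : 0 < T := lt_of_lt_of_le (by positivity) (le_csSup hbdd hT0)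
  have hT1 : T ≤ 1 / 16 := csSup_le hne (fun t ht => ht.2.1)
  have hPT : P M T := by
    intro f hf a ha
    have hD : 0 < ‖deriv f 0‖ := norm_pos_iff.2 (hf.dne 0 mem0)
    rw [← le_div_iff₀ hD]
    apply csSup_le hne
    intro t ht
    rw [le_div_iff₀ hD]
    exact ht.2.2 f hf a ha
  have hsq : Real.sqrt T ^ 2 = T := Real.sq_sqrt hTpos.le
  have hsq0 : 0 < Real.sqrt T := Real.sqrt_pos.2 hTpos
  have hsq1 : Real.sqrt T ≤ 1 / 4 := by
    rw [Real.sqrt_le_left (by norm_num)]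
    norm_num
    linarith
  have hmem : Real.sqrt T / 4 ∈ S := by
    refine ⟨by positivity, by linarith, ?_⟩
    intro f hf a ha
    have := P_step (by linarith) hTpos hT1 hPT hf ha
    have h2 : (Real.sqrt T * ‖deriv f 0‖) ^ 2 ≤ (4 * ‖a - f 0‖) ^ 2 := by
      rw [mul_pow, hsq]; linarith
    have h3 := le_of_sq_le_sq h2 (by positivity)
    linarith
  have hle := le_csSup hbdd hmem
  rw [← hT] at hle
  have h16 : 1 / 16 ≤ T := by nlinarith
  intro f hf a ha
  have hD : 0 ≤ ‖deriv f 0‖ := norm_nonneg _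
  have := hPT f hf a ha
  nlinarith

/-- Koebe covering with constant 1/16 on the unit disc. -/
theorem koebe_unit {f : ℂ → ℂ} (hf : Uni f) {a : ℂ} (ha : a ∉ f '' ball (0:ℂ) 1) :
    ‖deriv f 0‖ / 16 ≤ ‖a - f 0‖ := by
  have key : ∀ ρ : ℝ, 0 < ρ → ρ < 1 → ρ * ‖deriv f 0‖ / 16 ≤ ‖a - f 0‖ := by
    intro ρ hρ hρ1
    have hmaps : ∀ z ∈ ball (0:ℂ) 1, (ρ:ℂ) * z ∈ ball (0:ℂ) 1 := by
      intro z hz
      rw [mem_ball_zero_iff] at hz ⊢
      rw [norm_mul, Complex.norm_real, Real.norm_of_nonneg hρ.le]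
      nlinarith [norm_nonneg z]
    have hρc : (ρ:ℂ) ≠ 0 := by exact_mod_cast hρ.ne'
    have hder : ∀ z ∈ ball (0:ℂ) 1, HasDerivAt (fun z => f (ρ * z)) (deriv f (ρ * z) * ρ) z := by
      intro z hz
      have h1 := hf.hasDerivAt (hmaps z hz)
      have h2 : HasDerivAt (fun z : ℂ => (ρ:ℂ) * z) (ρ:ℂ) z := by
        simpa using (hasDerivAt_id z).const_mul (ρ:ℂ)
      exact h1.comp z h2
    have hU : Uni (fun z => f (ρ * z)) := by
      refine ⟨fun z hz => (hder z hz).differentiableAt.differentiableWithinAt, ?_, ?_⟩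
      · intro z hz w hw h
        have := hf.inj (hmaps z hz) (hmaps w hw) h
        exact mul_left_cancel₀ hρc this
      · intro z hz
        rw [(hder z hz).deriv]
        exact mul_ne_zero (hf.dne _ (hmaps z hz)) hρc
    have hcl : closedBall (0:ℂ) ρ ⊆ ball 0 1 := closedBall_subset_ball hρ1
    have hcomp : IsCompact (closedBall (0:ℂ) ρ) := isCompact_closedBall _ _
    obtain ⟨B, hB⟩ := hcomp.exists_bound_of_continuousOn (f := fun z => f z - f 0)
      ((hf.diff.continuousOn.mono hcl).sub continuousOn_const)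
    have hd0 : deriv (fun z => f (ρ * z)) 0 = deriv f 0 * ρ := by
      have := (hder 0 mem0).deriv
      simpa using this
    have hD : 0 < ‖deriv f 0 * ρ‖ := norm_pos_iff.2 (mul_ne_zero (hf.dne 0 mem0) hρc)
    have hK : KC (max 3 (B / ‖deriv f 0 * ρ‖)) (fun z => f (ρ * z)) := by
      refine ⟨hU, ?_⟩
      intro z hz
      rw [hd0]
      have h1 : ‖f (ρ * z) - f (ρ * 0)‖ ≤ B := by
        rw [mul_zero]
        apply hB
        rw [mem_closedBall_zero_iff, norm_mul, Complex.norm_real, Real.norm_of_nonneg hρ.le]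
        rw [mem_ball_zero_iff] at hz
        nlinarith [norm_nonneg z]
      refine h1.trans ?_
      rw [← div_le_iff₀ hD]
      exact le_max_right _ _
    have ha' : a ∉ (fun z => f (ρ * z)) '' ball (0:ℂ) 1 := by
      rintro ⟨z, hz, hza⟩
      exact ha ⟨ρ * z, hmaps z hz, hza⟩
    have := koebe_bdd (le_max_left _ _) _ hK a ha'
    rw [hd0, norm_mul, Complex.norm_real, Real.norm_of_nonneg hρ.le] at this
    simp only [mul_zero] at this
    linarith
  have hlim : Tendsto (fun ρ : ℝ => ρ * ‖deriv f 0‖ / 16) (𝓝[<] 1) (𝓝 (1 * ‖deriv f 0‖ / 16)) := by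
    apply Tendsto.mono_left _ nhdsWithin_le_nhds
    exact (tendsto_id.mul_const _).div_const _
  rw [one_mul] at hlim
  apply le_of_tendsto hlim
  have h1 : ∀ᶠ R : ℝ in 𝓝[<] 1, R < 1 := eventually_mem_nhdsWithin
  have h2 : ∀ᶠ R : ℝ in 𝓝[<] 1, 0 < R := by
    apply nhdsWithin_le_nhds
    exact lt_mem_nhds (by norm_num)
  filter_upwards [h1, h2] with R hR1 hR0 using key R hR0 hR1

/-- Local inverses of injective holomorphic functions are holomorphic. -/
theorem hasDerivAt_inverse {U W : Set ℂ} {f g : ℂ → ℂ} (hU : IsOpen U) (hW : IsOpen W)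
    (hf : DifferentiableOn ℂ f U) (hne : ∀ z ∈ U, deriv f z ≠ 0) (hinj : InjOn f U)
    (hg : ∀ w ∈ W, g w ∈ U ∧ f (g w) = w) {w : ℂ} (hw : w ∈ W) :
    HasDerivAt g (deriv f (g w))⁻¹ w := by
  obtain ⟨hgU, hfg⟩ := hg w hw
  have han : AnalyticAt ℂ f (g w) := hf.analyticAt (hU.mem_nhds hgU)
  have hst : HasStrictDerivAt f (deriv f (g w)) (g w) := han.hasStrictDerivAt
  have hmap := hst.map_nhds_eq (hne _ hgU)
  have hcont : ContinuousAt g w := by
    rw [ContinuousAt, tendsto_def]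
    intro A hA
    have h1 : f '' (A ∩ U) ∈ 𝓝 (f (g w)) := by
      rw [← hmap]
      exact Filter.image_mem_map (inter_mem hA (hU.mem_nhds hgU))
    rw [hfg] at h1
    filter_upwards [h1, hW.mem_nhds hw] with v hv hvW
    obtain ⟨x, ⟨hxA, hxU⟩, hxv⟩ := hv
    obtain ⟨hgvU, hfgv⟩ := hg v hvW
    have : g v = x := hinj hgvU hxU (by rw [hfgv, hxv])
    rw [mem_preimage, this]
    exact hxA
  apply HasDerivAt.of_local_left_inverse hcont hst.hasDerivAt (hne _ hgU)
  filter_upwards [hW.mem_nhds hw] with v hv using (hg v hv).2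

theorem exists_omitted {f : ℂ → ℂ} (hf : Uni f) :
    ∃ w, w ∉ f '' ball (0:ℂ) 1 ∧ ‖w - f 0‖ < 2 * ‖deriv f 0‖ := by
  by_contra hcon
  push Not at hcon
  have hD : 0 < ‖deriv f 0‖ := norm_pos_iff.2 (hf.dne 0 mem0)
  have hsub : ∀ w ∈ ball (f 0) (2 * ‖deriv f 0‖), w ∈ f '' ball (0:ℂ) 1 := by
    intro w hw
    by_contra h
    have := hcon w h
    rw [mem_ball, dist_eq_norm] at hw
    linarith
  set g := Function.invFunOn f (ball (0:ℂ) 1) with hg
  have hgs : ∀ w ∈ ball (f 0) (2 * ‖deriv f 0‖), g w ∈ ball (0:ℂ) 1 ∧ f (g w) = w := by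
    intro w hw
    obtain ⟨z, hz, hzw⟩ := hsub w hw
    exact ⟨Function.invFunOn_mem ⟨z, hz, hzw⟩, Function.invFunOn_eq ⟨z, hz, hzw⟩⟩
  have hm : f 0 ∈ ball (f 0) (2 * ‖deriv f 0‖) := mem_ball_self (by positivity)
  have hg0 : g (f 0) = 0 := hf.inj (hgs _ hm).1 mem0 (hgs _ hm).2
  have hder : ∀ w ∈ ball (f 0) (2 * ‖deriv f 0‖), HasDerivAt g (deriv f (g w))⁻¹ w :=
    fun w hw => hasDerivAt_inverse isOpen_ball isOpen_ball hf.diff hf.dne hf.inj hgs hw
  have h1 : ‖deriv g (f 0)‖ ≤ 1 / (2 * ‖deriv f 0‖) := by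
    apply norm_deriv_le_div_of_mapsTo_ball
      (fun w hw => (hder w hw).differentiableAt.differentiableWithinAt) _ (by positivity)
    intro w hw
    rw [hg0]
    exact ball_subset_closedBall (hgs w hw).1
  rw [(hder _ hm).deriv, hg0, norm_inv, ← one_div] at h1
  rw [one_div_le_one_div hD (by positivity)] at h1
  linarith

theorem second_coeff {f : ℂ → ℂ} (hf : Uni f) :
    ‖deriv (deriv f) 0‖ ≤ 10000 * ‖deriv f 0‖ := by
  obtain ⟨w, hw, hwD⟩ := exists_omitted hf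
  have hD : 0 < ‖deriv f 0‖ := norm_pos_iff.2 (hf.dne 0 mem0)
  have hA0 : w - f 0 ≠ 0 := by
    intro h
    exact hw ⟨0, mem0, (sub_eq_zero.1 h).symm⟩
  have hA : 0 < ‖w - f 0‖ := norm_pos_iff.2 hA0
  have hkoebe := koebe_unit hf hw
  obtain ⟨g, hgU, hg0, hgs, hder, hgneg⟩ := sqrt_transform hf hw
  set D := ‖deriv f 0‖ with hDdef
  set A := ‖w - f 0‖ with hAdef
  have h1 : ‖deriv g 0‖ = D / (2 * A) := by
    have := hder 0 mem0
    rw [hg0] at this
    have h2 : deriv g 0 = - deriv f 0 / (w - f 0) / 2 := by rw [← this]; ring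
    rw [h2, norm_div, norm_div, norm_neg, hDdef, hAdef]
    simp
    field_simp
  have hAD : D / (2 * A) ≥ 1 / 4 := by
    rw [ge_iff_le, div_le_div_iff₀ (by norm_num) (by positivity)]
    linarith
  have hδ : ∀ z ∈ ball (0:ℂ) 1, 1 / 64 ≤ ‖1 + g z‖ := by
    intro z hz
    have hnot : -g z ∉ g '' ball 0 1 := by
      rintro ⟨v, hv, hvz⟩
      exact hgneg v hv z hz hvz
    have := koebe_unit hgU hnot
    rw [h1, hg0] at this
    have h3 : ‖-g z - 1‖ = ‖1 + g z‖ := by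
      rw [← norm_neg]
      congr 1
      ring
    rw [h3] at this
    linarith
  have hne : ∀ z ∈ ball (0:ℂ) 1, 1 + g z ≠ 0 := by
    intro z hz h
    have := hδ z hz
    rw [h, norm_zero] at this
    linarith
  set h : ℂ → ℂ := fun z => (1 + g z)⁻¹ with hh
  have hhd : DifferentiableOn ℂ h (ball 0 1) := (hgU.diff.const_add 1).inv hne
  have hhb : ∀ z ∈ ball (0:ℂ) 1, ‖h z‖ ≤ 64 := by
    intro z hz
    rw [hh]
    simp only
    rw [norm_inv, inv_le_comm₀ (lt_of_lt_of_le (by norm_num) (hδ z hz)) (by norm_num)]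
    have := hδ z hz
    linarith
  have hcl : closedBall (0:ℂ) (1/2) ⊆ ball 0 1 := closedBall_subset_ball (by norm_num)
  have hh2 : ‖deriv (deriv h) 0‖ ≤ 512 := by
    have := norm_iteratedDeriv_le_of_forall_mem_sphere_norm_le (c := 0) (R := 1/2) (C := 64) (f := h) 2
      (by norm_num) ((hhd.mono hcl).diffContOnCl_ball le_rfl)
      (fun z hz => hhb z (hcl (sphere_subset_closedBall hz)))
    rw [iteratedDeriv_succ, iteratedDeriv_one] at this
    norm_num [Nat.factorial] at this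
    exact this
  -- h' = - g' / (1+g)^2
  have hgd : ∀ z ∈ ball (0:ℂ) 1, HasDerivAt g (deriv g z) z := fun z hz => hgU.hasDerivAt hz
  have hhder : ∀ z ∈ ball (0:ℂ) 1, deriv h z = - deriv g z / (1 + g z) ^ 2 := by
    intro z hz
    exact (((hgd z hz).const_add 1).fun_inv (hne z hz)).deriv
  have hgdd : HasDerivAt (deriv g) (deriv (deriv g) 0) 0 :=
    (((hgU.diff.deriv isOpen_ball) 0 mem0).differentiableAt (isOpen_ball.mem_nhds mem0)).hasDerivAt
  have hh'' : deriv (deriv h) 0 = - deriv (deriv g) 0 / 4 + (deriv g 0) ^ 2 / 4 := by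
    have e1 : deriv h =ᶠ[𝓝 0] fun z => - deriv g z / (1 + g z) ^ 2 := by
      filter_upwards [isOpen_ball.mem_nhds mem0] with z hz using hhder z hz
    rw [e1.deriv_eq]
    have e2 : HasDerivAt (fun z => - deriv g z) (- deriv (deriv g) 0) 0 := hgdd.fun_neg
    have e3 : HasDerivAt (fun z => (1 + g z) ^ 2) ((2:ℕ) * (1 + g 0) ^ (2-1) * deriv g 0) 0 :=
      ((hgd 0 mem0).const_add 1).fun_pow 2
    have e4 := e2.fun_div e3 (pow_ne_zero 2 (hne 0 mem0))
    rw [e4.deriv, hg0]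
    norm_num
    ring
  have hg'' : deriv (deriv g) 0 = - 4 * deriv (deriv h) 0 + (deriv g 0) ^ 2 := by
    rw [hh'']; ring
  have hf'' : deriv (deriv f) 0 = - (2 * (w - f 0)) * (deriv (deriv g) 0 + (deriv g 0) ^ 2) := by
    have e1 : deriv f =ᶠ[𝓝 0] fun z => - (2 * (w - f 0)) * (deriv g z * g z) := by
      filter_upwards [isOpen_ball.mem_nhds mem0] with z hz
      have := hder z hz
      rw [eq_div_iff hA0] at this
      linear_combination this
    rw [e1.deriv_eq]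
    have e2 := (hgdd.fun_mul (hgd 0 mem0)).const_mul (- (2 * (w - f 0)))
    rw [e2.deriv, hg0]
    ring
  rw [hf'', norm_mul, norm_neg, norm_mul]
  have n1 : ‖deriv (deriv g) 0 + (deriv g 0) ^ 2‖ ≤ 2048 + 2 * (D / (2 * A)) ^ 2 := by
    rw [hg'']
    calc ‖-4 * deriv (deriv h) 0 + deriv g 0 ^ 2 + deriv g 0 ^ 2‖
        ≤ ‖-4 * deriv (deriv h) 0 + deriv g 0 ^ 2‖ + ‖deriv g 0 ^ 2‖ := norm_add_le _ _
      _ ≤ ‖-4 * deriv (deriv h) 0‖ + ‖deriv g 0 ^ 2‖ + ‖deriv g 0 ^ 2‖ := by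
          gcongr; exact norm_add_le _ _
      _ ≤ 2048 + 2 * (D / (2 * A)) ^ 2 := by
          rw [norm_mul, norm_neg, norm_pow, h1]
          norm_num
          linarith
  have n2 : ‖(2:ℂ)‖ = 2 := by norm_num
  rw [n2, ← hAdef]
  calc 2 * A * ‖deriv (deriv g) 0 + (deriv g 0) ^ 2‖ ≤ 2 * A * (2048 + 2 * (D / (2 * A)) ^ 2) := by
        gcongr
    _ = 4096 * A + D * (D / A) := by field_simp; ring
    _ ≤ 4096 * (2 * D) + D * 16 := by
        have : D / A ≤ 16 := by rw [div_le_iff₀ hA]; linarith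
        gcongr
    _ ≤ 10000 * D := by linarith

/-- The open right half plane. -/
def H : Set ℂ := {z | 0 < z.re}

theorem isOpen_H : IsOpen H := isOpen_lt continuous_const continuous_re

theorem ball_sub_H {c : ℂ} {R : ℝ} (h : R ≤ c.re) : ball c R ⊆ H := by
  intro z hz
  rw [mem_ball, dist_eq_norm] at hz
  have := abs_re_le_norm (z - c)
  rw [sub_re] at this
  have h2 := neg_abs_le (z.re - c.re)
  change 0 < z.re
  linarith

/-- Injective holomorphic function on the half plane, nonvanishing derivative. -/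
structure UniH (u : ℂ → ℂ) : Prop where
  diff : DifferentiableOn ℂ u H
  inj : InjOn u H
  dne : ∀ z ∈ H, deriv u z ≠ 0

theorem UniH.hasDerivAt {u : ℂ → ℂ} (hu : UniH u) {z : ℂ} (hz : z ∈ H) :
    HasDerivAt u (deriv u z) z :=
  ((hu.diff z hz).differentiableAt (isOpen_H.mem_nhds hz)).hasDerivAt

theorem UniH.hasDerivAt2 {u : ℂ → ℂ} (hu : UniH u) {z : ℂ} (hz : z ∈ H) :
    HasDerivAt (deriv u) (deriv (deriv u) z) z :=
  (((hu.diff.deriv isOpen_H) z hz).differentiableAt (isOpen_H.mem_nhds hz)).hasDerivAt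

theorem UniH.scale {u : ℂ → ℂ} (hu : UniH u) {c : ℂ} {R : ℝ} (hR : 0 < R) (hRc : R ≤ c.re) :
    Uni (fun z => u (c + R * z)) ∧ deriv (fun z => u (c + R * z)) 0 = R * deriv u c ∧
      deriv (deriv (fun z => u (c + R * z))) 0 = R ^ 2 * deriv (deriv u) c := by
  have hRc' : (R:ℂ) ≠ 0 := by exact_mod_cast hR.ne'
  have hmaps : ∀ z ∈ ball (0:ℂ) 1, c + R * z ∈ H := by
    intro z hz
    apply ball_sub_H hRc
    rw [mem_ball, dist_eq_norm]
    rw [mem_ball_zero_iff] at hz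
    simp only [add_sub_cancel_left]
    rw [norm_mul, Complex.norm_real, Real.norm_of_nonneg hR.le]
    nlinarith [norm_nonneg z]
  have haff : ∀ z : ℂ, HasDerivAt (fun z : ℂ => c + (R:ℂ) * z) (R:ℂ) z := by
    intro z
    simpa using ((hasDerivAt_id z).const_mul (R:ℂ)).const_add c
  have hder : ∀ z ∈ ball (0:ℂ) 1, HasDerivAt (fun z => u (c + R * z)) (deriv u (c + R * z) * R) z :=
    fun z hz => (hu.hasDerivAt (hmaps z hz)).comp z (haff z)
  refine ⟨⟨fun z hz => (hder z hz).differentiableAt.differentiableWithinAt, ?_, ?_⟩, ?_, ?_⟩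
  · intro z hz w hw h
    have := hu.inj (hmaps z hz) (hmaps w hw) h
    have h2 := add_left_cancel this
    exact mul_left_cancel₀ hRc' h2
  · intro z hz
    rw [(hder z hz).deriv]
    exact mul_ne_zero (hu.dne _ (hmaps z hz)) hRc'
  · rw [(hder 0 mem0).deriv]
    simp [mul_comm]
  · have e1 : deriv (fun z => u (c + R * z)) =ᶠ[𝓝 0] fun z => deriv u (c + R * z) * R := by
      filter_upwards [isOpen_ball.mem_nhds mem0] with z hz using (hder z hz).deriv
    rw [e1.deriv_eq]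
    have e2 : HasDerivAt (fun z => deriv u (c + R * z)) (deriv (deriv u) (c + R * 0) * R) 0 :=
      HasDerivAt.comp (h₂ := deriv u) (0:ℂ) (hu.hasDerivAt2 (hmaps 0 mem0)) (haff 0)
    rw [(e2.mul_const _).deriv]
    simp
    ring

theorem UniH.cover {u : ℂ → ℂ} (hu : UniH u) {c : ℂ} {R : ℝ} (hR : 0 < R) (hRc : R ≤ c.re) :
    ball (u c) (R * ‖deriv u c‖ / 16) ⊆ u '' ball c R := by
  obtain ⟨h1, h2, -⟩ := hu.scale hR hRc
  intro w hw
  by_contra hcon
  have hnot : w ∉ (fun z => u (c + R * z)) '' ball (0:ℂ) 1 := by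
    rintro ⟨z, hz, hzw⟩
    apply hcon
    refine ⟨c + R * z, ?_, hzw⟩
    rw [mem_ball, dist_eq_norm]
    rw [mem_ball_zero_iff] at hz
    simp only [add_sub_cancel_left]
    rw [norm_mul, Complex.norm_real, Real.norm_of_nonneg hR.le]
    nlinarith [norm_nonneg z]
  have := koebe_unit h1 hnot
  rw [h2, norm_mul, Complex.norm_real, Real.norm_of_nonneg hR.le] at this
  simp only [mul_zero, add_zero] at this
  rw [mem_ball, dist_eq_norm] at hw
  linarith

theorem UniH.second {u : ℂ → ℂ} (hu : UniH u) {c : ℂ} (hc : c ∈ H) :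
    ‖deriv (deriv u) c‖ ≤ 10000 / c.re * ‖deriv u c‖ := by
  have hR : 0 < c.re := hc
  obtain ⟨h1, h2, h3⟩ := hu.scale hR le_rfl
  have := second_coeff h1
  rw [h2, h3, norm_mul, norm_mul, norm_pow, Complex.norm_real, Real.norm_of_nonneg hR.le] at this
  have h4 : c.re * ‖deriv (deriv u) c‖ ≤ 10000 * ‖deriv u c‖ := by
    have h5 : c.re * (c.re * ‖deriv (deriv u) c‖) ≤ c.re * (10000 * ‖deriv u c‖) := by
      calc _ = c.re ^ 2 * ‖deriv (deriv u) c‖ := by ring
        _ ≤ _ := this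
        _ = _ := by ring
    exact le_of_mul_le_mul_left h5 hR
  rw [div_mul_eq_mul_div, le_div_iff₀ hR]
  linarith

theorem UniH.dist_deriv {u : ℂ → ℂ} (hu : UniH u) {a b : ℂ} {s : ℝ} (hs : 0 < s)
    (ha : s ≤ a.re) (hb : s ≤ b.re) :
    ‖deriv u b‖ ≤ Real.exp (10000 / s * ‖b - a‖) * ‖deriv u a‖ := by
  set γ : ℝ → ℂ := fun t => a + t * (b - a) with hγ
  have hre : ∀ t ∈ Icc (0:ℝ) 1, s ≤ (γ t).re := by
    intro t ht
    have : (γ t).re = (1 - t) * a.re + t * b.re := by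
      simp [hγ]; ring
    rw [this]
    have h1 : 0 ≤ 1 - t := by linarith [ht.2]
    nlinarith [ht.1, ht.2, mul_le_mul_of_nonneg_left ha h1, mul_le_mul_of_nonneg_left hb ht.1]
  have hγH : ∀ t ∈ Icc (0:ℝ) 1, γ t ∈ H := fun t ht => lt_of_lt_of_le hs (hre t ht)
  have hγd : ∀ t : ℝ, HasDerivAt γ (b - a) t := by
    intro t
    have : HasDerivAt (fun t : ℝ => (t:ℂ)) 1 t := Complex.ofRealCLM.hasDerivAt
    exact ((this.mul_const (b - a)).const_add a).congr_deriv (one_mul _)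
  have hv : ∀ t ∈ Icc (0:ℝ) 1, HasDerivAt (fun t => deriv u (γ t))
      ((b - a) • deriv (deriv u) (γ t)) t := by
    intro t ht
    exact HasDerivAt.scomp t (hu.hasDerivAt2 (hγH t ht)) (hγd t)
  have key := norm_le_gronwallBound_of_norm_deriv_right_le (f := fun t => deriv u (γ t))
    (f' := fun t => (b - a) • deriv (deriv u) (γ t)) (δ := ‖deriv u a‖)
    (K := 10000 / s * ‖b - a‖) (ε := 0) (a := 0) (b := 1)
    (fun t ht => (hv t ht).continuousAt.continuousWithinAt)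
    (fun t ht => (hv t ⟨ht.1, ht.2.le⟩).hasDerivWithinAt) (by simp [hγ]) ?_ 1 ⟨zero_le_one, le_rfl⟩
  · rw [gronwallBound_ε0] at key
    simp only [hγ] at key
    simp only [sub_zero, mul_one, ofReal_one, one_mul, add_sub_cancel] at key
    rw [mul_comm]
    exact key
  · intro t ht
    rw [add_zero, norm_smul]
    have h1 := hu.second (hγH t ⟨ht.1, ht.2.le⟩)
    have h2 : 10000 / (γ t).re ≤ 10000 / s := by
      apply div_le_div_of_nonneg_left (by norm_num) hs (hre t ⟨ht.1, ht.2.le⟩)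
    calc ‖b - a‖ * ‖deriv (deriv u) (γ t)‖ ≤ ‖b - a‖ * (10000 / (γ t).re * ‖deriv u (γ t)‖) := by
          gcongr
      _ ≤ ‖b - a‖ * (10000 / s * ‖deriv u (γ t)‖) := by gcongr
      _ = _ := by ring

/-- Distortion of values along a segment, normalised by the derivative at a point of it. -/
theorem UniH.dist_val {u : ℂ → ℂ} (hu : UniH u) {a b p x y : ℂ} {s ℓ : ℝ} (hs : 0 < s)
    (ha : s ≤ a.re) (hb : s ≤ b.re) (hℓ : ‖b - a‖ ≤ ℓ) (hp : p ∈ segment ℝ a b)
    (hx : x ∈ segment ℝ a b) (hy : y ∈ segment ℝ a b) :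
    ‖u y - u x‖ ≤ ℓ * Real.exp (10000 / s * ℓ) * ‖deriv u p‖ := by
  have hconv : Convex ℝ {z : ℂ | s ≤ z.re} := convex_halfSpace_re_ge s
  have hseg : segment ℝ a b ⊆ {z : ℂ | s ≤ z.re} := hconv.segment_subset ha hb
  have hdist : ∀ z ∈ segment ℝ a b, ∀ w ∈ segment ℝ a b, ‖z - w‖ ≤ ℓ := by
    intro z hz w hw
    have h1 : segment ℝ a b ⊆ closedBall z ‖b - a‖ := by
      have := (convex_closedBall z ‖b - a‖).segment_subset (x := a) (y := b)
      apply this
      · rw [mem_closedBall, dist_eq_norm]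
        rw [segment_eq_image'] at hz
        obtain ⟨t, ht, rfl⟩ := hz
        rw [sub_add_cancel_left, norm_neg, norm_smul, Real.norm_of_nonneg ht.1]
        nlinarith [norm_nonneg (b - a), ht.2]
      · rw [mem_closedBall, dist_eq_norm]
        rw [segment_eq_image'] at hz
        obtain ⟨t, ht, rfl⟩ := hz
        have : b - (a + t • (b - a)) = (1 - t) • (b - a) := by
          rw [sub_smul, one_smul]; ring
        simp only [this]
        rw [norm_smul, Real.norm_of_nonneg (by linarith [ht.2])]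
        nlinarith [norm_nonneg (b - a), ht.1]
    have := h1 hw
    rw [mem_closedBall, dist_eq_norm, norm_sub_rev] at this
    exact this.trans hℓ
  have hbound : ∀ z ∈ segment ℝ a b, ‖deriv u z‖ ≤ Real.exp (10000 / s * ℓ) * ‖deriv u p‖ := by
    intro z hz
    refine (hu.dist_deriv hs (hseg hp) (hseg hz)).trans ?_
    gcongr
    exact hdist z hz p hp
  have := (convex_segment a b).norm_image_sub_le_of_norm_deriv_le (f := u)
    (fun z hz => (hu.hasDerivAt (lt_of_lt_of_le hs (hseg hz))).differentiableAt) hbound hx hy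
  refine this.trans ?_
  have h2 := hdist y hy x hx
  have h3 : 0 ≤ Real.exp (10000 / s * ℓ) * ‖deriv u p‖ := by positivity
  calc _ ≤ Real.exp (10000 / s * ℓ) * ‖deriv u p‖ * ℓ := by gcongr
    _ = _ := by ring

end Helper70.Koebe
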