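import Mathlib
import Pool.Agent.Helper70_Newton.Koebe

open Complex Metric Set Filter Topology Polynomial

namespace Helper70.Newton

open Helper70.Koebe

variable {ι : Type} [Fintype ι]

/-- logarithmic derivative -/
noncomputable def S (r : ι → ℂ) (z : ℂ) : ℂ := ∑ i, (z - r i)⁻¹

noncomputable def Q (r : ι → ℂ) (z : ℂ) : ℝ := ∑ i, (‖z - r i‖ ^ 2)⁻¹

/-- Newton map -/
noncomputable def N (r : ι → ℂ) (z : ℂ) : ℂ := z - (S r z)⁻¹

variable {r : ι → ℂ}

omit [Fintype ι] in
theorem sub_re_ge (hr : ∀ i, (r i).re ≤ 0) (z : ℂ) (i : ι) : z.re ≤ (z - r i).re := by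
  rw [sub_re]; linarith [hr i]

omit [Fintype ι] in
theorem sub_ne (hr : ∀ i, (r i).re ≤ 0) {z : ℂ} (hz : z ∈ H) (i : ι) : z - r i ≠ 0 := by
  intro h
  have h1 := sub_re_ge hr z i
  rw [h, zero_re] at h1
  have h2 : 0 < z.re := hz
  linarith

omit [Fintype ι] in
theorem inv_re_ge (hr : ∀ i, (r i).re ≤ 0) (z : ℂ) (i : ι) :
    z.re * (‖z - r i‖ ^ 2)⁻¹ ≤ ((z - r i)⁻¹).re := by
  rw [inv_re, normSq_eq_norm_sq, div_eq_mul_inv]
  exact mul_le_mul_of_nonneg_right (sub_re_ge hr z i) (by positivity)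

theorem re_S_ge (hr : ∀ i, (r i).re ≤ 0) (z : ℂ) : z.re * Q r z ≤ (S r z).re := by
  rw [Q, S, re_sum, Finset.mul_sum]
  exact Finset.sum_le_sum fun i _ => inv_re_ge hr z i

theorem Q_pos [Nonempty ι] (hr : ∀ i, (r i).re ≤ 0) {z : ℂ} (hz : z ∈ H) : 0 < Q r z := by
  apply Finset.sum_pos
  · intro i _
    have := norm_pos_iff.2 (sub_ne hr hz i)
    positivity
  · exact Finset.univ_nonempty

theorem re_S_pos [Nonempty ι] (hr : ∀ i, (r i).re ≤ 0) {z : ℂ} (hz : z ∈ H) : 0 < (S r z).re :=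
  lt_of_lt_of_le (mul_pos hz (Q_pos hr hz)) (re_S_ge hr z)

theorem S_ne [Nonempty ι] (hr : ∀ i, (r i).re ≤ 0) {z : ℂ} (hz : z ∈ H) : S r z ≠ 0 := by
  intro h
  have := re_S_pos hr hz
  rw [h, zero_re] at this
  exact lt_irrefl _ this

theorem re_inv_S_pos [Nonempty ι] (hr : ∀ i, (r i).re ≤ 0) {z : ℂ} (hz : z ∈ H) :
    0 < ((S r z)⁻¹).re := by
  rw [inv_re]
  exact div_pos (re_S_pos hr hz) (normSq_pos.2 (S_ne hr hz))

/-- Cauchy-Schwarz -/
theorem norm_sum_sq_le (z w : ℂ) :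
    ‖∑ i, ((z - r i) * (w - r i))⁻¹‖ ^ 2 ≤ Q r z * Q r w := by
  have h1 : ‖∑ i, ((z - r i) * (w - r i))⁻¹‖ ≤ ∑ i, ‖z - r i‖⁻¹ * ‖w - r i‖⁻¹ := by
    refine (norm_sum_le _ _).trans (le_of_eq (Finset.sum_congr rfl fun i _ => ?_))
    rw [norm_inv, norm_mul, mul_inv]
  have h2 : (∑ i, ‖z - r i‖⁻¹ * ‖w - r i‖⁻¹) ^ 2 ≤
      (∑ i, ‖z - r i‖⁻¹ ^ 2) * (∑ i, ‖w - r i‖⁻¹ ^ 2) :=
    Finset.sum_mul_sq_le_sq_mul_sq _ _ _
  calc ‖∑ i, ((z - r i) * (w - r i))⁻¹‖ ^ 2 ≤ (∑ i, ‖z - r i‖⁻¹ * ‖w - r i‖⁻¹) ^ 2 := by gcongr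
    _ ≤ _ := h2
    _ = _ := by simp only [Q, inv_pow]

theorem S_sub {z w : ℂ} (hz : ∀ i, z - r i ≠ 0) (hw : ∀ i, w - r i ≠ 0) :
    S r z - S r w = - (z - w) * ∑ i, ((z - r i) * (w - r i))⁻¹ := by
  rw [S, S, ← Finset.sum_sub_distrib, Finset.mul_sum]
  refine Finset.sum_congr rfl fun i _ => ?_
  have h1 := hz i
  have h2 := hw i
  field_simp
  ring

/-- the key strict inequality -/
theorem Q_lt [Nonempty ι] (hr : ∀ i, (r i).re ≤ 0) {z : ℂ} (hz : z ∈ H) (hN : N r z ∈ H) :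
    Q r z < ‖S r z‖ ^ 2 := by
  have hz0 : 0 < z.re := hz
  have h1 : 0 < (z - (S r z)⁻¹).re := hN
  rw [sub_re, inv_re, normSq_eq_norm_sq] at h1
  have hS : 0 < ‖S r z‖ ^ 2 := by
    have := norm_pos_iff.2 (S_ne hr hz)
    positivity
  have h2 : (S r z).re < z.re * ‖S r z‖ ^ 2 := by
    have : (S r z).re / ‖S r z‖ ^ 2 < z.re := by linarith
    rwa [div_lt_iff₀ hS] at this
  have h3 := re_S_ge hr z
  have h4 : z.re * Q r z < z.re * ‖S r z‖ ^ 2 := lt_of_le_of_lt h3 h2
  exact lt_of_mul_lt_mul_left h4 hz0.le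

theorem hasDerivAt_S {z : ℂ} (hz : ∀ i, z - r i ≠ 0) :
    HasDerivAt (S r) (- ∑ i, ((z - r i) * (z - r i))⁻¹) z := by
  have h1 : HasDerivAt (fun z => ∑ i, (z - r i)⁻¹) (∑ i, -1 / (z - r i) ^ 2) z := by
    apply HasDerivAt.fun_sum
    intro i _
    exact ((hasDerivAt_id z).sub_const (r i)).fun_inv (hz i)
  have h2 : (∑ i, -1 / (z - r i) ^ 2) = - ∑ i, ((z - r i) * (z - r i))⁻¹ := by
    rw [← Finset.sum_neg_distrib]
    refine Finset.sum_congr rfl fun i _ => ?_
    rw [neg_div, one_div, pow_two]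
  rw [← h2]
  exact h1

/-- domain of the inverse branch -/
def G (r : ι → ℂ) : Set ℂ := {z | z ∈ H ∧ N r z ∈ H}

theorem hasDerivAt_N [Nonempty ι] (hr : ∀ i, (r i).re ≤ 0) {z : ℂ} (hz : z ∈ H) :
    HasDerivAt (N r) (1 - (∑ i, ((z - r i) * (z - r i))⁻¹) / (S r z) ^ 2) z := by
  have h1 := (hasDerivAt_S (r := r) (fun i => sub_ne hr hz i)).fun_inv (S_ne hr hz)
  have h2 := (hasDerivAt_id z).fun_sub h1
  refine h2.congr_deriv ?_
  rw [neg_neg]

theorem deriv_N_ne [Nonempty ι] (hr : ∀ i, (r i).re ≤ 0) {z : ℂ} (hz : z ∈ G r) :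
    deriv (N r) z ≠ 0 := by
  rw [(hasDerivAt_N hr hz.1).deriv]
  intro h
  have h1 : ∑ i, ((z - r i) * (z - r i))⁻¹ = (S r z) ^ 2 := by
    have h3 := S_ne hr hz.1
    have h2 : (∑ i, ((z - r i) * (z - r i))⁻¹) / (S r z) ^ 2 = 1 := by linear_combination -h
    rwa [div_eq_one_iff_eq (pow_ne_zero 2 h3)] at h2
  have h2 := norm_sum_sq_le (r := r) z z
  rw [h1, norm_pow] at h2
  have h3 := Q_lt hr hz.1 hz.2
  have h4 := Q_pos hr hz.1
  nlinarith

theorem N_injOn [Nonempty ι] (hr : ∀ i, (r i).re ≤ 0) : InjOn (N r) (G r) := by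
  intro z hz w hw h
  by_contra hne
  have hzw : z - w ≠ 0 := sub_ne_zero.2 hne
  have hSz := S_ne hr hz.1
  have hSw := S_ne hr hw.1
  have h1 := S_sub (r := r) (fun i => sub_ne hr hz.1 i) (fun i => sub_ne hr hw.1 i)
  have h2 : S r z - S r w = - (z - w) * (S r z * S r w) := by
    have : z - w = (S r z)⁻¹ - (S r w)⁻¹ := by
      simp only [N] at h
      linear_combination h
    rw [this]
    field_simp
    ring
  have h3 : ∑ i, ((z - r i) * (w - r i))⁻¹ = S r z * S r w := by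
    have h4 : - (z - w) * ∑ i, ((z - r i) * (w - r i))⁻¹ = - (z - w) * (S r z * S r w) := by
      rw [← h1, h2]
    exact mul_left_cancel₀ (neg_ne_zero.2 hzw) h4
  have h4 := norm_sum_sq_le (r := r) z w
  rw [h3, norm_mul, mul_pow] at h4
  have h5 := Q_lt hr hz.1 hz.2
  have h6 := Q_lt hr hw.1 hw.2
  have h7 := Q_pos hr hz.1
  have h8 := Q_pos hr hw.1
  have h9 : Q r z * Q r w < ‖S r z‖ ^ 2 * ‖S r w‖ ^ 2 := by
    apply mul_lt_mul'' h5 h6 h7.le h8.le
  linarith

theorem isOpen_G [Nonempty ι] (hr : ∀ i, (r i).re ≤ 0) : IsOpen (G r) := by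
  have hc : ContinuousOn (N r) H := fun z hz =>
    (hasDerivAt_N hr hz).continuousAt.continuousWithinAt
  exact hc.isOpen_inter_preimage isOpen_H isOpen_H

/-- Existence of the preimage. -/
theorem exists_preimage (hr : ∀ i, (r i).re ≤ 0) (hcard : 2 ≤ Fintype.card ι) {w : ℂ}
    (hw : w ∈ H) : ∃ z ∈ G r, N r z = w := by
  classical
  have hnonempty : Nonempty ι := Fintype.card_pos_iff.1 (by omega)
  set P : ℂ[X] := ∏ i, (X - C (r i)) with hP
  have hPm : P.Monic := monic_prod_of_monic _ _ fun i _ => monic_X_sub_C _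
  have hPd : P.natDegree = Fintype.card ι := by
    rw [hP, natDegree_prod_of_monic _ _ (fun i _ => monic_X_sub_C _)]
    simp
  have hPev : ∀ z, P.eval z = ∏ i, (z - r i) := by
    intro z
    rw [hP, eval_prod]
    simp
  have hPr : P.roots = Finset.univ.val.map r := by
    rw [hP]
    have : (∏ i, (X - C (r i))) = (Multiset.map (fun a => X - C a) (Finset.univ.val.map r)).prod := by
      rw [Multiset.map_map]
      rfl
    rw [this, roots_multiset_prod_X_sub_C]
  have hPne : ∀ z ∈ H, P.eval z ≠ 0 := by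
    intro z hz
    rw [hPev]
    exact Finset.prod_ne_zero_iff.2 fun i _ => sub_ne hr hz i
  have hPS : ∀ z ∈ H, P.derivative.eval z = P.eval z * S r z := by
    intro z hz
    rw [(IsAlgClosed.splits P).eval_derivative_eq_eval_mul_sum (hPne z hz), hPr, Multiset.map_map]
    congr 1
    change _ = (Multiset.map (fun i => (z - r i)⁻¹) Finset.univ.val).sum
    congr 1
    apply Multiset.map_congr rfl
    intro i _
    simp
  set A : ℂ[X] := (X - C w) * P.derivative - P with hA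
  have hAd : A.derivative = (X - C w) * P.derivative.derivative := by
    rw [hA]
    simp [derivative_mul]
  have hAw : A.eval w ≠ 0 := by
    rw [hA]
    simp [hPne w hw]
  have hAw' : A.derivative.eval w = 0 := by
    rw [hAd]; simp
  have hsum := (IsAlgClosed.splits A).eval_derivative_eq_eval_mul_sum hAw
  rw [hAw'] at hsum
  have hsum0 : (A.roots.map fun z ↦ 1 / (w - z)).sum = 0 := by
    rcases mul_eq_zero.1 hsum.symm with h | h
    · exact absurd h hAw
    · exact h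
  -- A is nonconstant
  obtain ⟨n, hn⟩ : ∃ n, Fintype.card ι = n + 2 := ⟨Fintype.card ι - 2, by omega⟩
  have hcoef : A.coeff (n + 2) = (n : ℂ) + 1 := by
    rw [hA, coeff_sub, sub_mul, coeff_sub, coeff_X_mul, coeff_C_mul, coeff_derivative,
      coeff_derivative]
    have h1 : P.coeff (n + 1 + 1) = 1 := by
      rw [show n + 1 + 1 = P.natDegree by rw [hPd, hn]]
      exact hPm.coeff_natDegree
    have h2 : P.coeff (n + 2 + 1) = 0 := by
      apply coeff_eq_zero_of_natDegree_lt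
      rw [hPd, hn]
      omega
    rw [h1, h2]
    push_cast
    ring
  have hdeg : 0 < A.degree := by
    have h1 : (n + 2 : ℕ) ≤ A.natDegree := by
      apply le_natDegree_of_ne_zero
      rw [hcoef]
      exact_mod_cast Nat.succ_ne_zero n
    exact natDegree_pos_iff_degree_pos.1 (by omega)
  have hrootsne : A.roots ≠ 0 := by
    apply (IsAlgClosed.splits A).roots_ne_zero
    exact (natDegree_pos_iff_degree_pos.2 hdeg).ne'
  -- some root has real part at least that of w
  obtain ⟨ξ, hξ, hξre⟩ : ∃ ξ ∈ A.roots, w.re ≤ ξ.re := by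
    by_contra hcon
    push Not at hcon
    have hpos : 0 < ((A.roots.map fun z ↦ 1 / (w - z)).sum).re := by
      have hre : ((A.roots.map fun z ↦ 1 / (w - z)).sum).re =
          (A.roots.map fun z ↦ (1 / (w - z)).re).sum := by
        rw [← Complex.reCLM_apply, map_multiset_sum, Multiset.map_map]
        rfl
      rw [hre]
      have hall : ∀ z ∈ A.roots, 0 < (1 / (w - z)).re := by
        intro z hz
        rw [one_div, inv_re]
        have h1 : 0 < (w - z).re := by rw [sub_re]; linarith [hcon z hz]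
        apply div_pos h1
        apply normSq_pos.2
        intro h
        rw [h, zero_re] at h1
        exact lt_irrefl _ h1
      obtain ⟨ξ, hξ⟩ := Multiset.exists_mem_of_ne_zero hrootsne
      obtain ⟨t, ht⟩ := Multiset.exists_cons_of_mem hξ
      rw [ht, Multiset.map_cons, Multiset.sum_cons]
      have h2 : 0 ≤ (t.map fun z ↦ (1 / (w - z)).re).sum := by
        apply Multiset.sum_nonneg
        intro x hx
        obtain ⟨z, hz, rfl⟩ := Multiset.mem_map.1 hx
        exact (hall z (by rw [ht]; exact Multiset.mem_cons_of_mem hz)).le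
      have h3 := hall ξ hξ
      linarith
    rw [hsum0, zero_re] at hpos
    exact lt_irrefl _ hpos
  have hw0 : 0 < w.re := hw
  have hξH : ξ ∈ H := lt_of_lt_of_le hw0 hξre
  have hξ0 : A.eval ξ = 0 := (mem_roots'.1 hξ).2
  rw [hA] at hξ0
  simp only [eval_sub, eval_mul, eval_X, eval_C] at hξ0
  rw [hPS ξ hξH] at hξ0
  have h1 : (ξ - w) * S r ξ = 1 := by
    have h2 := hPne ξ hξH
    have h3 : P.eval ξ * ((ξ - w) * S r ξ - 1) = 0 := by linear_combination hξ0
    rcases mul_eq_zero.1 h3 with h | h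
    · exact absurd h h2
    · linear_combination h
  have h2 : N r ξ = w := by
    have h3 : (S r ξ)⁻¹ = ξ - w := by
      rw [inv_eq_iff_eq_inv]
      exact eq_inv_of_mul_eq_one_right h1
    rw [N, h3]
    ring
  exact ⟨ξ, ⟨hξH, by rw [h2]; exact hw⟩, h2⟩

/-- The inverse branch of the Newton map on the half plane. -/
noncomputable def phi (r : ι → ℂ) (w : ℂ) : ℂ :=
  open Classical in if h : ∃ z ∈ G r, N r z = w then h.choose else w

theorem phi_spec (hr : ∀ i, (r i).re ≤ 0) (hcard : 2 ≤ Fintype.card ι) {w : ℂ}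
    (hw : w ∈ H) : phi r w ∈ G r ∧ N r (phi r w) = w := by
  have h := exists_preimage hr hcard hw
  rw [phi, dif_pos h]
  exact h.choose_spec

theorem phi_eq (hr : ∀ i, (r i).re ≤ 0) (hcard : 2 ≤ Fintype.card ι) {z : ℂ}
    (hz : z ∈ G r) : phi r (N r z) = z := by
  have : Nonempty ι := Fintype.card_pos_iff.1 (by omega)
  have h := phi_spec hr hcard hz.2
  exact N_injOn hr h.1 hz h.2

theorem phi_uniH (hr : ∀ i, (r i).re ≤ 0) (hcard : 2 ≤ Fintype.card ι) : UniH (phi r) := by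
  have : Nonempty ι := Fintype.card_pos_iff.1 (by omega)
  have hdiffN : DifferentiableOn ℂ (N r) (G r) := fun z hz =>
    (hasDerivAt_N hr hz.1).differentiableAt.differentiableWithinAt
  have hder : ∀ w ∈ H, HasDerivAt (phi r) (deriv (N r) (phi r w))⁻¹ w := fun w hw =>
    hasDerivAt_inverse (isOpen_G hr) isOpen_H hdiffN (fun z hz => deriv_N_ne hr hz) (N_injOn hr)
      (fun w hw => phi_spec hr hcard hw) hw
  refine ⟨fun w hw => (hder w hw).differentiableAt.differentiableWithinAt, ?_, ?_⟩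
  · intro z hz w hw h
    rw [← (phi_spec hr hcard hz).2, ← (phi_spec hr hcard hw).2, h]
  · intro w hw
    rw [(hder w hw).deriv]
    exact inv_ne_zero (deriv_N_ne hr (phi_spec hr hcard hw).1)

theorem phi_mem (hr : ∀ i, (r i).re ≤ 0) (hcard : 2 ≤ Fintype.card ι) {w : ℂ}
    (hw : w ∈ H) : phi r w ∈ H := (phi_spec hr hcard hw).1.1

theorem iter_mem (hr : ∀ i, (r i).re ≤ 0) (hcard : 2 ≤ Fintype.card ι) {w : ℂ}
    (hw : w ∈ H) (n : ℕ) : (phi r)^[n] w ∈ H := by
  induction n with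
  | zero => exact hw
  | succ n ih =>
    rw [Function.iterate_succ_apply']
    exact phi_mem hr hcard ih

theorem iter_uniH (hr : ∀ i, (r i).re ≤ 0) (hcard : 2 ≤ Fintype.card ι) (n : ℕ) :
    UniH ((phi r)^[n]) := by
  have h0 := phi_uniH hr hcard
  induction n with
  | zero =>
    refine ⟨differentiableOn_id, fun z _ w _ h => h, fun z _ => ?_⟩
    simp
  | succ n ih =>
    have hder : ∀ w ∈ H, HasDerivAt ((phi r)^[n+1])
        (deriv ((phi r)^[n]) (phi r w) * deriv (phi r) w) w := by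
      intro w hw
      rw [Function.iterate_succ]
      exact (ih.hasDerivAt (phi_mem hr hcard hw)).comp w (h0.hasDerivAt hw)
    refine ⟨fun w hw => (hder w hw).differentiableAt.differentiableWithinAt, ?_, ?_⟩
    · intro z hz w hw h
      rw [Function.iterate_succ_apply, Function.iterate_succ_apply] at h
      exact h0.inj hz hw (ih.inj (phi_mem hr hcard hz) (phi_mem hr hcard hw) h)
    · intro w hw
      rw [(hder w hw).deriv]
      exact mul_ne_zero (ih.dne _ (phi_mem hr hcard hw)) (h0.dne _ hw)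

theorem norm_S_le {z : ℂ} {δ : ℝ} (hδ : 0 < δ) (h : ∀ i, δ ≤ ‖z - r i‖) :
    ‖S r z‖ ≤ Fintype.card ι / δ := by
  calc ‖S r z‖ ≤ ∑ i, ‖(z - r i)⁻¹‖ := norm_sum_le _ _
    _ ≤ ∑ _i : ι, δ⁻¹ := by
        apply Finset.sum_le_sum
        intro i _
        rw [norm_inv]
        exact inv_anti₀ hδ (h i)
    _ = _ := by simp [div_eq_mul_inv]

/-- Orbits under the inverse branch are unbounded. -/
theorem iter_unbounded (hr : ∀ i, (r i).re ≤ 0) (hcard : 2 ≤ Fintype.card ι) {w : ℂ}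
    (hw : w ∈ H) (B : ℝ) : ∃ n, B ≤ ‖(phi r)^[n] w‖ := by
  have hne : Nonempty ι := Fintype.card_pos_iff.1 (by omega)
  by_contra hcon
  push Not at hcon
  obtain ⟨B', hB'⟩ : ∃ B', ∀ i, ‖r i‖ ≤ B' := by
    obtain ⟨B', hB'⟩ := (Set.finite_range fun i => ‖r i‖).bddAbove
    exact ⟨B', fun i => hB' ⟨i, rfl⟩⟩
  have hw0 : 0 < w.re := hw
  set z : ℕ → ℂ := fun n => (phi r)^[n] w with hz
  have hzH : ∀ n, z n ∈ H := fun n => iter_mem hr hcard hw n
  have hstep : ∀ n, z (n + 1) - z n = (S r (z (n+1)))⁻¹ := by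
    intro n
    have h1 := (phi_spec hr hcard (hzH n)).2
    have h2 : phi r (z n) = z (n+1) := by
      rw [hz]
      simp only
      rw [Function.iterate_succ_apply']
    rw [h2, N] at h1
    linear_combination h1
  have hB0 : 0 ≤ B := (norm_nonneg _).trans (hcon 0).le
  have hB'0 : 0 ≤ B' := (norm_nonneg _).trans (hB' hne.some)
  have hcpos : (0:ℝ) < Fintype.card ι := by exact_mod_cast Fintype.card_pos
  have hmono : ∀ n, w.re ≤ (z n).re := by
    intro n
    induction n with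
    | zero => exact le_rfl
    | succ n ih =>
      have h1 := congrArg Complex.re (hstep n)
      rw [sub_re] at h1
      have h2 := re_inv_S_pos hr (hzH (n+1))
      linarith
  -- lower bound for the increments
  set c : ℝ := w.re * (Fintype.card ι / (B + B' + 1) ^ 2) / (Fintype.card ι / w.re) ^ 2 with hc
  have hc0 : 0 < c := by positivity
  have hinc : ∀ n, c ≤ (z (n+1)).re - (z n).re := by
    intro n
    have h1 := congrArg Complex.re (hstep n)
    rw [sub_re] at h1
    rw [h1, inv_re, normSq_eq_norm_sq, hc]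
    have hS0 : 0 < ‖S r (z (n+1))‖ := norm_pos_iff.2 (S_ne hr (hzH (n+1)))
    have h3 : ‖S r (z (n+1))‖ ≤ Fintype.card ι / w.re := by
      apply norm_S_le hw0
      intro i
      have h4 := sub_re_ge hr (z (n+1)) i
      have h5 := re_le_norm (z (n+1) - r i)
      have h6 := hmono (n+1)
      linarith
    have h4 : Fintype.card ι / (B + B' + 1) ^ 2 ≤ Q r (z (n+1)) := by
      rw [Q, div_eq_mul_inv]
      have : (Fintype.card ι : ℝ) * ((B + B' + 1) ^ 2)⁻¹ = ∑ _i : ι, ((B + B' + 1) ^ 2)⁻¹ := by simp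
      rw [this]
      apply Finset.sum_le_sum
      intro i _
      have hpos : 0 < ‖z (n+1) - r i‖ := norm_pos_iff.2 (sub_ne hr (hzH (n+1)) i)
      apply inv_anti₀ (by positivity)
      have h5 : ‖z (n+1) - r i‖ ≤ B + B' + 1 := by
        have := norm_sub_le (z (n+1)) (r i)
        have h6 := (hcon (n+1)).le
        have h7 := hB' i
        have h8 : ‖z (n+1)‖ ≤ B := h6
        linarith
      gcongr
    have h5 := re_S_ge hr (z (n+1))
    have h6 : w.re * (Fintype.card ι / (B + B' + 1) ^ 2) ≤ (S r (z (n+1))).re := by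
      refine le_trans ?_ h5
      have := hmono (n+1)
      have h0 : 0 ≤ (z (n+1)).re := (hzH (n+1)).le
      gcongr
    have h7 : 0 ≤ (S r (z (n+1))).re := (re_S_pos hr (hzH (n+1))).le
    gcongr
  have hlin : ∀ n : ℕ, n * c ≤ (z n).re := by
    intro n
    induction n with
    | zero => simp; exact (hzH 0).le
    | succ n ih =>
      have := hinc n
      push_cast
      linarith
  obtain ⟨n, hn⟩ := exists_nat_gt (B / c)
  have h1 := hlin n
  have h2 : (z n).re ≤ ‖z n‖ := re_le_norm _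
  have h3 : ‖z n‖ < B := hcon n
  rw [div_lt_iff₀ hc0] at hn
  linarith

end Helper70.Newton
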