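import Mathlib
import Pool.Agent.Helper70_Newton.Branch

open Complex Metric Set Filter Topology

namespace Helper70.Newton

open Helper70.Koebe

variable {ι : Type} [Fintype ι]

/-- the nonzero roots -/
def r' (r : ι → ℂ) : {i // ¬ (r i = 0)} → ℂ := fun i => r i

open Classical in
noncomputable def mult (r : ι → ℂ) : ℕ := Fintype.card {i // r i = 0}

open Classical in
theorem S_split (r : ι → ℂ) (z : ℂ) : S r z = mult r * z⁻¹ + S (r' r) z := by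
  have h := (Fintype.sum_subtype_add_sum_subtype (fun i => r i = 0) fun i => (z - r i)⁻¹).symm
  rw [S, h]
  congr 1
  have : ∀ i : {i // r i = 0}, (z - r i)⁻¹ = z⁻¹ := fun i => by rw [i.2, sub_zero]
  simp only [this, Finset.sum_const, nsmul_eq_mul, mult]
  rfl

variable {r : ι → ℂ}

omit [Fintype ι] in
theorem r'_re (hr : ∀ i, (r i).re ≤ 0) : ∀ i, (r' r i).re ≤ 0 := fun i => hr i

omit [Fintype ι] in
theorem real_sub_ne (hr : ∀ i, (r i).re ≤ 0) {x : ℝ} (hx : 0 ≤ x) (i : {i // ¬ (r i = 0)}) :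
    (x:ℂ) - r' r i ≠ 0 := by
  intro h
  have h1 : r i = x := (sub_eq_zero.1 h).symm
  have h2 := hr i
  rw [h1, ofReal_re] at h2
  have h3 : x = 0 := le_antisymm h2 hx
  exact i.2 (by rw [h1, h3]; simp)

open Classical in
theorem exists_scale (hr : ∀ i, (r i).re ≤ 0) (hcard : 2 ≤ Fintype.card ι)
    (hr2 : ∀ i, ‖r i‖ ≤ 2) {X : ℝ} (hX : 0 < X) (hX1 : X ≤ 1 / 20) :
    ∃ x : ℝ, 0 < x ∧ x ≤ X ∧ x * ‖S (r' r) x‖ ≤ 1 / 400 ∧
      (mult r = 1 → X ^ 2 / 9 ≤ x * ‖S (r' r) x‖) := by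
  set f : ℝ → ℝ := fun x => x * ‖S (r' r) x‖ with hf
  have hcont : ContinuousOn f (Icc 0 X) := by
    intro x hx
    have h1 : HasDerivAt (S (r' r)) _ (x:ℂ) :=
      hasDerivAt_S (fun i => real_sub_ne hr hx.1 i)
    have h2 : ContinuousAt (fun x : ℝ => S (r' r) x) x :=
      ContinuousAt.comp (f := fun x : ℝ => (x:ℂ)) h1.continuousAt continuous_ofReal.continuousAt
    exact (continuousAt_id.mul h2.norm).continuousWithinAt
  have hf0 : f 0 = 0 := by simp [hf]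
  by_cases hc : f X ≤ 1 / 400
  · refine ⟨X, hX, le_rfl, hc, ?_⟩
    intro hm
    have hcard' : 0 < Fintype.card {i // ¬ (r i = 0)} := by
      have := Fintype.card_subtype_compl (fun i => r i = 0)
      rw [mult] at hm
      rw [this, hm]
      omega
    obtain ⟨i⟩ := Fintype.card_pos_iff.1 hcard'
    have h1 := re_S_ge (r'_re hr) (X:ℂ)
    rw [ofReal_re] at h1
    have h2 : (‖(X:ℂ) - r' r i‖ ^ 2)⁻¹ ≤ Q (r' r) X := by
      rw [Q]
      exact Finset.single_le_sum (f := fun i => (‖(X:ℂ) - r' r i‖ ^ 2)⁻¹)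
        (fun j _ => by positivity) (Finset.mem_univ i)
    have h3 : ‖(X:ℂ) - r' r i‖ ≤ 3 := by
      calc _ ≤ ‖(X:ℂ)‖ + ‖r' r i‖ := norm_sub_le _ _
        _ ≤ 1 + 2 := by
          gcongr
          · rw [Complex.norm_real, Real.norm_of_nonneg hX.le]; linarith
          · exact hr2 i
        _ = 3 := by norm_num
    have h0 : 0 < ‖(X:ℂ) - r' r i‖ := norm_pos_iff.2 (real_sub_ne hr hX.le i)
    have h4 : (3 ^ 2 : ℝ)⁻¹ ≤ (‖(X:ℂ) - r' r i‖ ^ 2)⁻¹ := by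
      apply inv_anti₀ (by positivity)
      gcongr
    have h5 : X * (3 ^ 2 : ℝ)⁻¹ ≤ ‖S (r' r) X‖ :=
      (mul_le_mul_of_nonneg_left (h4.trans h2) hX.le).trans (h1.trans (re_le_norm _))
    calc X ^ 2 / 9 = X * (X * (3 ^ 2 : ℝ)⁻¹) := by ring
      _ ≤ X * ‖S (r' r) X‖ := by gcongr
  · push Not at hc
    have hmem : (1 / 400 : ℝ) ∈ Icc (f 0) (f X) := ⟨by rw [hf0]; norm_num, hc.le⟩
    obtain ⟨x, hx, hfx⟩ := intermediate_value_Icc hX.le hcont hmem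
    have hx0 : 0 < x := by
      rcases lt_or_eq_of_le hx.1 with h | h
      · exact h
      · rw [← h, hf0] at hfx
        norm_num at hfx
    refine ⟨x, hx0, hx.2, hfx.le, ?_⟩
    intro _
    have h1 : x * ‖S (r' r) x‖ = 1 / 400 := hfx
    rw [h1]
    nlinarith

/-- Data at a good scale -/
structure Scale (r : ι → ℂ) (x : ℝ) : Prop where
  hr : ∀ i, (r i).re ≤ 0
  pos : 0 < x
  small : x * ‖S (r' r) x‖ ≤ 1 / 400
  hm : 1 ≤ mult r

open Classical in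
theorem Scale.Q_le {x : ℝ} (h : Scale r x) : x ^ 2 * Q (r' r) x ≤ 1 / 400 := by
  have h1 := re_S_ge (r'_re h.hr) (x:ℂ)
  rw [ofReal_re] at h1
  have h2 := re_le_norm (S (r' r) x)
  have h3 := h.pos
  calc x ^ 2 * Q (r' r) x = x * (x * Q (r' r) x) := by ring
    _ ≤ x * ‖S (r' r) x‖ := by gcongr; exact h1.trans h2
    _ ≤ _ := h.small

open Classical in
theorem Scale.far {x : ℝ} (h : Scale r x) (i : {i // ¬ (r i = 0)}) :
    20 * x ≤ ‖(x:ℂ) - r' r i‖ := by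
  have h1 := h.Q_le
  have h2 : (‖(x:ℂ) - r' r i‖ ^ 2)⁻¹ ≤ Q (r' r) x := by
    rw [Q]
    exact Finset.single_le_sum (f := fun i => (‖(x:ℂ) - r' r i‖ ^ 2)⁻¹)
      (fun j _ => by positivity) (Finset.mem_univ i)
  have h0 : 0 < ‖(x:ℂ) - r' r i‖ := norm_pos_iff.2 (real_sub_ne h.hr h.pos.le i)
  have h3 : x ^ 2 * (‖(x:ℂ) - r' r i‖ ^ 2)⁻¹ ≤ 1 / 400 :=
    (mul_le_mul_of_nonneg_left h2 (by positivity)).trans h1
  rw [← div_eq_mul_inv, div_le_iff₀ (by positivity)] at h3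
  have h4 : (20 * x) ^ 2 ≤ ‖(x:ℂ) - r' r i‖ ^ 2 := by nlinarith
  exact le_of_sq_le_sq h4 h0.le

theorem Scale.far_z {x : ℝ} (h : Scale r x) {z : ℂ} (hz : ‖z‖ ≤ 3 * x) (i : {i // ¬ (r i = 0)}) :
    4 / 5 * ‖(x:ℂ) - r' r i‖ ≤ ‖z - r' r i‖ := by
  have h1 := h.far i
  have h2 : ‖(x:ℂ) - r' r i‖ ≤ ‖z - r' r i‖ + ‖(x:ℂ) - z‖ := by
    have : (x:ℂ) - r' r i = (z - r' r i) + ((x:ℂ) - z) := by ring
    rw [this]
    exact norm_add_le _ _
  have h3 : ‖(x:ℂ) - z‖ ≤ 4 * x := by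
    calc _ ≤ ‖(x:ℂ)‖ + ‖z‖ := norm_sub_le _ _
      _ ≤ x + 3 * x := by
        gcongr
        rw [Complex.norm_real, Real.norm_of_nonneg h.pos.le]
      _ = _ := by ring
  linarith

theorem Scale.sub_ne' {x : ℝ} (h : Scale r x) {z : ℂ} (hz : ‖z‖ ≤ 3 * x)
    (i : {i // ¬ (r i = 0)}) : z - r' r i ≠ 0 := by
  intro h0
  have h1 := h.far_z hz i
  have h2 := h.far i
  rw [h0, norm_zero] at h1
  linarith [h.pos]

open Classical in
theorem Scale.T_sub {x : ℝ} (h : Scale r x) {z : ℂ} (hz : ‖z‖ ≤ 3 * x) :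
    x * ‖S (r' r) z - S (r' r) x‖ ≤ 5 / 400 := by
  have hx := h.pos
  rw [S_sub (fun i => h.sub_ne' hz i) (fun i => real_sub_ne h.hr h.pos.le i), norm_mul, norm_neg]
  have h3 : ‖z - (x:ℂ)‖ ≤ 4 * x := by
    calc _ ≤ ‖z‖ + ‖(x:ℂ)‖ := norm_sub_le _ _
      _ ≤ 3 * x + x := by
        gcongr
        rw [Complex.norm_real, Real.norm_of_nonneg h.pos.le]
      _ = _ := by ring
  have h4 : ‖∑ i, ((z - r' r i) * ((x:ℂ) - r' r i))⁻¹‖ ≤ 5 / 4 * Q (r' r) x := by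
    rw [Q, Finset.mul_sum]
    refine (norm_sum_le _ _).trans (Finset.sum_le_sum fun i _ => ?_)
    have h5 := h.far_z hz i
    have h0 : 0 < ‖(x:ℂ) - r' r i‖ := norm_pos_iff.2 (real_sub_ne h.hr h.pos.le i)
    have h6 : 0 < ‖z - r' r i‖ := norm_pos_iff.2 (h.sub_ne' hz i)
    rw [norm_inv, norm_mul]
    have h7 : 4 / 5 * ‖(x:ℂ) - r' r i‖ ^ 2 ≤ ‖z - r' r i‖ * ‖(x:ℂ) - r' r i‖ := by nlinarith
    calc (‖z - r' r i‖ * ‖(x:ℂ) - r' r i‖)⁻¹ ≤ (4 / 5 * ‖(x:ℂ) - r' r i‖ ^ 2)⁻¹ :=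
          inv_anti₀ (by positivity) h7
      _ = _ := by rw [mul_inv]; norm_num
  have h5 := h.Q_le
  calc x * (‖z - (x:ℂ)‖ * ‖∑ i, ((z - r' r i) * ((x:ℂ) - r' r i))⁻¹‖)
      ≤ x * (4 * x * (5 / 4 * Q (r' r) x)) := by gcongr
    _ = 5 * (x ^ 2 * Q (r' r) x) := by ring
    _ ≤ 5 * (1 / 400) := by gcongr
    _ = _ := by norm_num

open Classical in
theorem Scale.g_le {x : ℝ} (h : Scale r x) {z : ℂ} (hz : ‖z‖ ≤ 3 * x) :
    ‖z * S (r' r) z‖ ≤ 1 / 20 := by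
  have hx := h.pos
  have h1 := h.T_sub hz
  have h2 := h.small
  have h3 : ‖S (r' r) z‖ ≤ ‖S (r' r) z - S (r' r) x‖ + ‖S (r' r) x‖ := by
    have : S (r' r) z = (S (r' r) z - S (r' r) x) + S (r' r) x := by ring
    conv_lhs => rw [this]
    exact norm_add_le _ _
  rw [norm_mul]
  calc ‖z‖ * ‖S (r' r) z‖ ≤ 3 * x * (‖S (r' r) z - S (r' r) x‖ + ‖S (r' r) x‖) := by gcongr
    _ = 3 * (x * ‖S (r' r) z - S (r' r) x‖ + x * ‖S (r' r) x‖) := by ring
    _ ≤ 3 * (5 / 400 + 1 / 400) := by gcongr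
    _ ≤ _ := by norm_num

open Classical in
theorem Scale.S_eq {z : ℂ} (hz0 : z ≠ 0) :
    z * S r z = mult r + z * S (r' r) z := by
  rw [S_split]
  field_simp

open Classical in
theorem Scale.norm_m_add {x : ℝ} (h : Scale r x) {z : ℂ} (hz : ‖z‖ ≤ 3 * x) :
    (mult r : ℝ) - 1 / 20 ≤ ‖(mult r : ℂ) + z * S (r' r) z‖ := by
  have h1 := h.g_le hz
  have h2 : ‖(mult r : ℂ)‖ ≤ ‖(mult r : ℂ) + z * S (r' r) z‖ + ‖z * S (r' r) z‖ := by
    have : (mult r : ℂ) = ((mult r : ℂ) + z * S (r' r) z) - z * S (r' r) z := by ring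
    conv_lhs => rw [this]
    exact norm_sub_le _ _
  rw [Complex.norm_natCast] at h2
  linarith

theorem Scale.S_ne_zero {x : ℝ} (h : Scale r x) {z : ℂ} (hz : ‖z‖ ≤ 3 * x) (hz0 : z ≠ 0) :
    S r z ≠ 0 := by
  classical
  intro h0
  have h1 := Scale.S_eq (r := r) hz0
  rw [h0, mul_zero] at h1
  have h2 := h.norm_m_add hz
  rw [← h1, norm_zero] at h2
  have h3 : (1:ℝ) ≤ mult r := by exact_mod_cast h.hm
  linarith

/-- contraction near the root -/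
theorem Scale.contract {x : ℝ} (h : Scale r x) {z : ℂ} (hz : ‖z‖ ≤ 3 * x) (hz0 : z ≠ 0) :
    ‖N r z‖ ≤ ((mult r : ℝ) - 1 / 2) / (mult r) * ‖z‖ := by
  classical
  have h1 := Scale.S_eq (r := r) hz0
  have h2 := h.norm_m_add hz
  have h3 : (1:ℝ) ≤ mult r := by exact_mod_cast h.hm
  have hg := h.g_le hz
  set g := z * S (r' r) z with hgdef
  have hSne := h.S_ne_zero hz hz0
  have hmg : (mult r : ℂ) + g ≠ 0 := by
    rw [← h1]; exact mul_ne_zero hz0 hSne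
  have hN : N r z = z * (((mult r : ℂ) - 1 + g) / ((mult r : ℂ) + g)) := by
    rw [N]
    have h4 : (S r z)⁻¹ = z / ((mult r : ℂ) + g) := by
      rw [← h1]
      field_simp
    rw [h4]
    field_simp
    ring
  rw [hN, norm_mul, norm_div, mul_comm]
  have h5 : ‖(mult r : ℂ) - 1 + g‖ ≤ (mult r : ℝ) - 1 + 1 / 20 := by
    have h6 : ‖(mult r : ℂ) - 1‖ = (mult r : ℝ) - 1 := by
      have : ((mult r : ℂ) - 1) = (((mult r : ℝ) - 1 : ℝ) : ℂ) := by push_cast; rfl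
      rw [this, Complex.norm_real, Real.norm_of_nonneg (by linarith)]
    calc _ ≤ ‖(mult r : ℂ) - 1‖ + ‖g‖ := norm_add_le _ _
      _ ≤ _ := by rw [h6]; linarith
  have hpos : 0 < ‖(mult r : ℂ) + g‖ := norm_pos_iff.2 hmg
  apply mul_le_mul_of_nonneg_right _ (norm_nonneg z)
  rw [div_le_div_iff₀ hpos (by linarith)]
  nlinarith [norm_nonneg ((mult r : ℂ) - 1 + g)]

open Classical in
/-- a direction in which the Newton step is under control -/
theorem exists_dir (hr : ∀ i, (r i).re ≤ 0) {x : ℝ} (hx : 0 < x) :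
    ∃ t : ℝ, -1 ≤ t ∧ t ≤ 1 ∧ ∃ ρ : ℝ, 0 ≤ ρ ∧
      ((x:ℂ) * (1 + t * I)) ^ 2 * S (r' r) ((x:ℂ) * (1 + t * I)) = ρ := by
  by_cases hne : Nonempty {i // ¬ (r i = 0)}
  swap
  · rw [not_nonempty_iff] at hne
    refine ⟨0, by norm_num, by norm_num, 0, le_rfl, ?_⟩
    simp [S]
  have hre : ∀ t : ℝ, (x:ℂ) * (1 + t * I) ∈ H := by
    intro t
    change 0 < ((x:ℂ) * (1 + t * I)).re
    simp [hx]
  have hTpos : ∀ t : ℝ, 0 < (S (r' r) ((x:ℂ) * (1 + t * I))).re := fun t =>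
    re_S_pos (r'_re hr) (hre t)
  set Ψ : ℝ → ℝ := fun t => (((x:ℂ) * (1 + t * I)) ^ 2 * S (r' r) ((x:ℂ) * (1 + t * I))).im with hΨ
  have hc1 : Continuous fun t : ℝ => (x:ℂ) * (1 + t * I) := by fun_prop
  have hcont : ContinuousOn Ψ (Icc (-1) 1) := by
    intro t _
    have h1 : HasDerivAt (S (r' r)) _ ((x:ℂ) * (1 + t * I)) :=
      hasDerivAt_S (fun i => sub_ne (r'_re hr) (hre t) i)
    have h2 : ContinuousAt (fun t : ℝ => S (r' r) ((x:ℂ) * (1 + t * I))) t :=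
      ContinuousAt.comp (f := fun t : ℝ => (x:ℂ) * (1 + t * I)) h1.continuousAt hc1.continuousAt
    exact (continuous_im.continuousAt.comp ((hc1.continuousAt.pow 2).mul h2)).continuousWithinAt
  have hsq : ∀ t : ℝ, ((x:ℂ) * (1 + t * I)) ^ 2 =
      ((x ^ 2 * (1 - t ^ 2) : ℝ) : ℂ) + ((2 * x ^ 2 * t : ℝ) : ℂ) * I := by
    intro t
    push_cast
    ring_nf
    rw [I_sq]
    ring
  have him : ∀ t : ℝ, Ψ t = x ^ 2 * (1 - t ^ 2) * (S (r' r) ((x:ℂ) * (1 + t * I))).im +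
      2 * x ^ 2 * t * (S (r' r) ((x:ℂ) * (1 + t * I))).re := by
    intro t
    simp only [hΨ]
    rw [hsq t, mul_im]
    simp only [add_re, ofReal_re, mul_re, I_re, mul_zero, ofReal_im, I_im, mul_one,
      add_zero, add_im, mul_im, zero_add, sub_zero]
  have h1 : Ψ (-1) ≤ 0 := by
    rw [him]
    have := hTpos (-1)
    have h2 : 0 < x ^ 2 := by positivity
    nlinarith [mul_pos h2 this]
  have h2 : 0 ≤ Ψ 1 := by
    rw [him]
    have := hTpos 1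
    have h2 : 0 < x ^ 2 := by positivity
    nlinarith [mul_pos h2 this]
  obtain ⟨t, ht, hΨt⟩ := intermediate_value_Icc (by norm_num : (-1:ℝ) ≤ 1) hcont ⟨h1, h2⟩
  refine ⟨t, ht.1, ht.2, ((x:ℂ) * (1 + t * I) |> fun z => (z ^ 2 * S (r' r) z)).re, ?_, ?_⟩
  · simp only
    rw [hsq t, mul_re]
    simp only [add_re, ofReal_re, mul_re, I_re, mul_zero, ofReal_im, I_im, mul_one,
      add_zero, add_im, mul_im, zero_add, sub_zero]
    rw [him] at hΨt
    set C := (S (r' r) ((x:ℂ) * (1 + t * I))).re with hC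
    set D := (S (r' r) ((x:ℂ) * (1 + t * I))).im with hD
    have hCpos : 0 < C := hTpos t
    have hA0 : 0 ≤ x ^ 2 * (1 - t ^ 2) := by
      have : 0 ≤ 1 - t ^ 2 := by nlinarith [ht.1, ht.2]
      positivity
    rcases hA0.lt_or_eq with hA | hA
    · have h3 : 0 ≤ (x ^ 2 * (1 - t ^ 2)) * (x ^ 2 * (1 - t ^ 2) * C - 2 * x ^ 2 * t * D) := by
        have h4 : (x ^ 2 * (1 - t ^ 2)) * (x ^ 2 * (1 - t ^ 2) * C - 2 * x ^ 2 * t * D) =
            ((x ^ 2 * (1 - t ^ 2)) ^ 2 + (2 * x ^ 2 * t) ^ 2) * C := by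
          linear_combination (-(2 * x ^ 2 * t)) * hΨt
        rw [h4]
        positivity
      have h5 := nonneg_of_mul_nonneg_right h3 hA
      simpa using h5
    · exfalso
      rw [← hA, zero_mul, zero_add] at hΨt
      have hx2 : 0 < x ^ 2 := by positivity
      have h6 : t = 0 := by
        rcases mul_eq_zero.1 hΨt with h | h
        · rcases mul_eq_zero.1 h with h | h
          · linarith
          · exact h
        · linarith
      rw [h6] at hA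
      have hA' : x ^ 2 = 0 := by linarith
      exact hx2.ne' hA'
  · apply Complex.ext
    · simp
    · have : (((x:ℂ) * (1 + t * I)) ^ 2 * S (r' r) ((x:ℂ) * (1 + t * I))).im = 0 := hΨt
      rw [this]
      simp

open Classical in
/-- Harnack type comparison of `T`. -/
theorem T_compare (hr : ∀ i, (r i).re ≤ 0) {x t : ℝ} (hx : 0 < x) (ht1 : -1 ≤ t) (ht2 : t ≤ 1) :
    ‖S (r' r) x‖ ≤ 3 * ‖S (r' r) ((x:ℂ) * (1 + t * I))‖ := by
  set z := (x:ℂ) * (1 + t * I) with hz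
  have hzre : z.re = x := by simp [hz]
  have hzH : z ∈ H := by change 0 < z.re; rw [hzre]; exact hx
  have hxH : (x:ℂ) ∈ H := by change 0 < (x:ℂ).re; simpa using hx
  have h1 := S_sub (r := r' r) (fun i => sub_ne (r'_re hr) hzH i) (fun i => sub_ne (r'_re hr) hxH i)
  have h2 := norm_sum_sq_le (r := r' r) z x
  have h3 := re_S_ge (r'_re hr) z
  have h4 := re_S_ge (r'_re hr) (x:ℂ)
  rw [hzre] at h3
  rw [ofReal_re] at h4
  have h5 := re_le_norm (S (r' r) z)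
  have h6 := re_le_norm (S (r' r) x)
  have h7 : ‖z - x‖ ≤ x := by
    have : z - x = x * (t * I) := by rw [hz]; ring
    rw [this, norm_mul, norm_mul, Complex.norm_real, Complex.norm_real, norm_I, mul_one,
      Real.norm_of_nonneg hx.le, Real.norm_eq_abs]
    have := abs_le.2 ⟨ht1, ht2⟩
    nlinarith
  set A := ‖S (r' r) z‖ with hA
  set B := ‖S (r' r) x‖ with hB
  set W := ‖∑ i, ((z - r' r i) * ((x:ℂ) - r' r i))⁻¹‖ with hW
  have hA0 : 0 ≤ A := norm_nonneg _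
  have hB0 : 0 ≤ B := norm_nonneg _
  have hW0 : 0 ≤ W := norm_nonneg _
  have hd : ‖S (r' r) z - S (r' r) x‖ ≤ x * W := by
    rw [h1, norm_mul, norm_neg]
    gcongr
  have hBA : B - A ≤ x * W := by
    have h8 : B ≤ ‖S (r' r) z - S (r' r) x‖ + A := by
      have : S (r' r) x = S (r' r) z - (S (r' r) z - S (r' r) x) := by ring
      rw [hB]
      conv_lhs => rw [this]
      have := norm_sub_le (S (r' r) z) (S (r' r) z - S (r' r) x)
      linarith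
    linarith
  have hQz : 0 ≤ Q (r' r) z := Finset.sum_nonneg fun i _ => by positivity
  have hQx : 0 ≤ Q (r' r) x := Finset.sum_nonneg fun i _ => by positivity
  have hWW : (x * W) ^ 2 ≤ A * B := by
    calc (x * W) ^ 2 = x ^ 2 * W ^ 2 := by ring
      _ ≤ x ^ 2 * (Q (r' r) z * Q (r' r) x) := by gcongr
      _ = (x * Q (r' r) z) * (x * Q (r' r) x) := by ring
      _ ≤ A * B := by
        apply mul_le_mul (h3.trans h5) (h4.trans h6) (by positivity) hA0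
  by_contra hcon
  push Not at hcon
  have h9 : 0 < B - A := by linarith
  have h10 : (B - A) ^ 2 ≤ A * B := by
    have : (B - A) ^ 2 ≤ (x * W) ^ 2 := by gcongr
    linarith
  nlinarith

theorem re_base {M a b ρ : ℝ} (hM : 1 ≤ M) (ha : 0 < a) (hb : b ^ 2 ≤ a ^ 2) (hρ : 0 ≤ ρ)
    (hρa : ρ ≤ a / 10) :
    ((M - 1) * a + ρ) / (3 * M) ≤
      ((((a:ℂ) + b * I) * (((M:ℂ) - 1) * ((a:ℂ) + b * I) + ρ)) / ((M:ℂ) * ((a:ℂ) + b * I) + ρ)).re := by
  rw [div_re]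
  have e1 : ((M:ℂ) * ((a:ℂ) + b * I) + ρ).re = M * a + ρ := by simp
  have e2 : ((M:ℂ) * ((a:ℂ) + b * I) + ρ).im = M * b := by simp
  have e3 : (((a:ℂ) + b * I) * (((M:ℂ) - 1) * ((a:ℂ) + b * I) + ρ)).re =
      a * ((M - 1) * a + ρ) - b * ((M - 1) * b) := by simp
  have e4 : (((a:ℂ) + b * I) * (((M:ℂ) - 1) * ((a:ℂ) + b * I) + ρ)).im =
      a * ((M - 1) * b) + b * ((M - 1) * a + ρ) := by simp
  have e5 : normSq ((M:ℂ) * ((a:ℂ) + b * I) + ρ) = (M * a + ρ) ^ 2 + (M * b) ^ 2 := by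
    rw [normSq_apply, e1, e2]; ring
  rw [e1, e2, e3, e4, e5, ← add_div]
  have hMa : a ≤ M * a := by nlinarith
  have hden : 0 < (M * a + ρ) ^ 2 + (M * b) ^ 2 := by positivity
  rw [div_le_div_iff₀ (by positivity) hden]
  have hden2 : (M * a + ρ) ^ 2 + (M * b) ^ 2 ≤ 3 * M ^ 2 * a ^ 2 := by
    have h1 : M * a + ρ ≤ 11 / 10 * (M * a) := by linarith
    have h2 : (M * a + ρ) ^ 2 ≤ (11 / 10 * (M * a)) ^ 2 := by gcongr
    have h3 : (M * b) ^ 2 ≤ (M * a) ^ 2 := by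
      rw [mul_pow, mul_pow]; gcongr
    nlinarith [sq_nonneg (M * a)]
  have hk : 0 ≤ (M - 1) * a + ρ := by
    have : 0 ≤ (M - 1) * a := mul_nonneg (by linarith) ha.le
    linarith
  have hnum : M * a ^ 2 * ((M - 1) * a + ρ) ≤
      (a * ((M - 1) * a + ρ) - b * ((M - 1) * b)) * (M * a + ρ) +
        (a * ((M - 1) * b) + b * ((M - 1) * a + ρ)) * (M * b) := by
    have h1 : (a * ((M - 1) * a + ρ) - b * ((M - 1) * b)) * (M * a + ρ) +
        (a * ((M - 1) * b) + b * ((M - 1) * a + ρ)) * (M * b) - M * a ^ 2 * ((M - 1) * a + ρ) =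
        M * ((M - 1) * a) * b ^ 2 + (M - 1) * ρ * (a ^ 2 - b ^ 2) + M * ρ * b ^ 2 + ρ ^ 2 * a := by
      ring
    have hM1 : 0 ≤ M - 1 := by linarith
    have hab : 0 ≤ a ^ 2 - b ^ 2 := by linarith
    have : 0 ≤ M * ((M - 1) * a) * b ^ 2 + (M - 1) * ρ * (a ^ 2 - b ^ 2) + M * ρ * b ^ 2 + ρ ^ 2 * a := by
      positivity
    linarith
  calc ((M - 1) * a + ρ) * ((M * a + ρ) ^ 2 + (M * b) ^ 2) ≤ ((M - 1) * a + ρ) * (3 * M ^ 2 * a ^ 2) := by
        gcongr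
    _ = M * a ^ 2 * ((M - 1) * a + ρ) * (3 * M) := by ring
    _ ≤ _ := by gcongr

open Classical in
theorem exists_base (hr : ∀ i, (r i).re ≤ 0) (hcard : 2 ≤ Fintype.card ι)
    (hr2 : ∀ i, ‖r i‖ ≤ 2) (hm : 1 ≤ mult r) {X : ℝ} (hX : 0 < X) (hX1 : X ≤ 1 / 20) :
    ∃ (x : ℝ) (z : ℂ), x ≤ X ∧ Scale r x ∧ z.re = x ∧ ‖z‖ ≤ 3 / 2 * x ∧ z ∈ G r ∧
      X ^ 2 / 81 * x ≤ (N r z).re ∧ ‖N r z‖ ≤ 3 / 2 * x := by
  obtain ⟨x, hx, hxX, hsm, hlow⟩ := exists_scale hr hcard hr2 hX hX1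
  have hS : Scale r x := ⟨hr, hx, hsm, hm⟩
  obtain ⟨t, ht1, ht2, ρ, hρ, hρe⟩ := exists_dir hr hx
  have ht : t ^ 2 ≤ 1 := by nlinarith
  set z := (x:ℂ) * (1 + t * I) with hz
  clear_value z
  have hzre : z.re = x := by simp [hz]
  have hzim : z.im = x * t := by simp [hz]
  have hz0 : z ≠ 0 := by
    intro h
    rw [h, zero_re] at hzre
    exact hx.ne hzre
  have hnz : ‖z‖ ^ 2 = x ^ 2 * (1 + t ^ 2) := by
    rw [← normSq_eq_norm_sq, normSq_apply, hzre, hzim]; ring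
  have hzle : ‖z‖ ≤ 3 / 2 * x := by
    apply le_of_sq_le_sq _ (by positivity)
    rw [hnz]
    nlinarith
  have hz3 : ‖z‖ ≤ 3 * x := by linarith
  have hg := hS.g_le hz3
  have hρn : ρ = ‖z‖ * ‖z * S (r' r) z‖ := by
    have h1 : ‖z ^ 2 * S (r' r) z‖ = ρ := by rw [hρe, Complex.norm_real, Real.norm_of_nonneg hρ]
    rw [← h1, norm_mul, norm_mul, norm_pow]; ring
  have hρle : ρ ≤ x / 10 := by
    rw [hρn]
    calc ‖z‖ * ‖z * S (r' r) z‖ ≤ 3 / 2 * x * (1 / 20) := by gcongr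
      _ ≤ x / 10 := by linarith
  have hM : (1:ℝ) ≤ mult r := by exact_mod_cast hm
  have hSz := Scale.S_eq (r := r) hz0
  have hSne := hS.S_ne_zero hz3 hz0
  have hden : (mult r : ℂ) * z + ρ ≠ 0 := by
    intro h
    have := congrArg Complex.re h
    simp [hzre] at this
    nlinarith
  have hN : N r z = (z * (((mult r : ℂ) - 1) * z + ρ)) / ((mult r : ℂ) * z + ρ) := by
    have h1 : z ^ 2 * S r z = (mult r : ℂ) * z + ρ := by
      rw [← hρe]
      linear_combination z * hSz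
    have h2 : (S r z)⁻¹ = z ^ 2 / ((mult r : ℂ) * z + ρ) := by
      rw [← h1]
      field_simp
    rw [N, h2, eq_div_iff hden, sub_mul, div_mul_cancel₀ _ hden]
    ring
  have hzab : z = ((x:ℝ):ℂ) + ((x * t : ℝ) : ℂ) * I := by
    rw [hz]; push_cast; ring
  have hre := re_base (M := (mult r : ℝ)) (a := x) (b := x * t) (ρ := ρ) hM hx
    (by nlinarith [sq_nonneg x]) hρ hρle
  rw [ofReal_natCast, ← hzab, ← hN] at hre
  have hlow2 : X ^ 2 / 81 * x ≤ (((mult r : ℝ) - 1) * x + ρ) / (3 * (mult r : ℝ)) := by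
    rw [le_div_iff₀ (by positivity)]
    rcases Nat.eq_or_lt_of_le hm with h1 | h2
    · have h3 := hlow h1.symm
      have h4 := T_compare hr hx ht1 ht2
      rw [← hz] at h4
      have h5 : x ^ 2 * ‖S (r' r) z‖ ≤ ρ := by
        rw [hρn, norm_mul]
        have : x ≤ ‖z‖ := by rw [← hzre]; exact re_le_norm z
        calc x ^ 2 * ‖S (r' r) z‖ = x * (x * ‖S (r' r) z‖) := by ring
          _ ≤ ‖z‖ * (‖z‖ * ‖S (r' r) z‖) := by gcongr
      have h6 : (mult r : ℝ) = 1 := by exact_mod_cast h1.symm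
      rw [h6]
      have h7 : x * (X ^ 2 / 9) ≤ 3 * ρ := by
        calc x * (X ^ 2 / 9) ≤ x * (x * ‖S (r' r) x‖) := by gcongr
          _ ≤ x * (x * (3 * ‖S (r' r) z‖)) := by gcongr
          _ = 3 * (x ^ 2 * ‖S (r' r) z‖) := by ring
          _ ≤ 3 * ρ := by gcongr
      linarith
    · have h3 : (2:ℝ) ≤ mult r := by exact_mod_cast h2
      have h4 : X ^ 2 ≤ 1 := by nlinarith
      have h5 : X ^ 2 / 81 * x * (3 * (mult r : ℝ)) ≤ 1 / 27 * (x * mult r) := by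
        calc X ^ 2 / 81 * x * (3 * (mult r : ℝ)) ≤ 1 / 81 * x * (3 * (mult r : ℝ)) := by gcongr
          _ = _ := by ring
      nlinarith [mul_pos hx (lt_of_lt_of_le zero_lt_one hM)]
  have hNre : X ^ 2 / 81 * x ≤ (N r z).re := hlow2.trans hre
  have hNpos : 0 < (N r z).re := lt_of_lt_of_le (by positivity) hNre
  refine ⟨x, z, hxX, hS, hzre, hzle, ⟨?_, hNpos⟩, hNre, ?_⟩
  · change 0 < z.re
    rw [hzre]; exact hx
  · refine (hS.contract hz3 hz0).trans ?_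
    have : ((mult r : ℝ) - 1 / 2) / (mult r) ≤ 1 := by
      rw [div_le_one (by linarith)]
      linarith
    calc _ ≤ 1 * ‖z‖ := by gcongr
      _ ≤ _ := by linarith

end Helper70.Newton
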