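import Mathlib
import Pool.Agent.Helper70_Newton.Local

open Complex Metric Set Filter Topology

namespace Helper70.Newton

open Helper70.Koebe

theorem core {R : ℝ} (hR : 1 < R) : ∃ c1 : ℝ, 0 < c1 ∧
    ∀ (ι : Type) [Fintype ι] (r : ι → ℂ), (∀ i, (r i).re ≤ 0) → 2 ≤ Fintype.card ι →
    (∀ i, ‖r i‖ ≤ 2) → 1 ≤ mult r → ∀ α u : ℂ, ‖u‖ = 1 → ‖α‖ < 1 → (∀ i, ‖α + u * r i‖ < 1) →
    ∃ q : ℂ, ‖α + u * q‖ = R ∧ ∀ ζ ∈ ball q (c1 / Fintype.card ι),
      ∃ (n : ℕ) (x : ℝ) (ζ' : ℂ), Scale r x ∧ ζ' ∈ H ∧ ‖ζ'‖ ≤ 3 * x ∧ (phi r)^[n] ζ' = ζ := by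
  set X : ℝ := min (1 / 20) ((R - 1) / 2) with hX
  have hX0 : 0 < X := lt_min (by norm_num) (by linarith)
  have hX1 : X ≤ 1 / 20 := min_le_left _ _
  have hX2 : X ≤ (R - 1) / 2 := min_le_right _ _
  set c0 : ℝ := X ^ 2 / 81 with hc0
  have hc0pos : 0 < c0 := by positivity
  have hc01 : c0 ≤ 1 := by rw [hc0]; nlinarith
  set E : ℝ := Real.exp (30000 / c0) with hE
  have hEpos : 0 < E := Real.exp_pos _
  refine ⟨c0 * (R - 1) / (96 * E), by have : 0 < R - 1 := by linarith
                                      positivity, ?_⟩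
  intro ι _ r hr hcard hr2 hm α u hu hα hroots
  have hne : Nonempty ι := Fintype.card_pos_iff.1 (by omega)
  obtain ⟨x, z1, hxX, hS, hz1re, hz1n, hz1G, hz0re, hz0n⟩ := exists_base hr hcard hr2 hm hX0 hX1
  have hx := hS.pos
  set z0 := N r z1 with hz0
  have hphi : phi r z0 = z1 := phi_eq hr hcard hz1G
  clear_value z0
  have hz0H : z0 ∈ H := lt_of_lt_of_le (by positivity) hz0re
  have hz1H : z1 ∈ H := hz1G.1
  set z : ℕ → ℂ := fun n => (phi r)^[n] z0 with hz
  have hzH : ∀ n, z n ∈ H := fun n => iter_mem hr hcard hz0H n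
  -- crossing index
  have hex : ∃ n, R ≤ ‖α + u * z n‖ := by
    obtain ⟨n, hn⟩ := iter_unbounded hr hcard hz0H (R + 1)
    refine ⟨n, ?_⟩
    have h1 : ‖u * z n‖ = ‖z n‖ := by rw [norm_mul, hu, one_mul]
    have h2 : ‖u * z n‖ ≤ ‖α + u * z n‖ + ‖α‖ := by
      have : u * z n = (α + u * z n) - α := by ring
      conv_lhs => rw [this]
      exact norm_sub_le _ _
    have h3 : R + 1 ≤ ‖z n‖ := hn
    linarith
  classical
  have hfind := Nat.find_spec hex
  have hn0 : Nat.find hex ≠ 0 := by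
    intro h
    rw [h] at hfind
    have h1 : ‖α + u * z 0‖ ≤ ‖α‖ + ‖z0‖ := by
      calc _ ≤ ‖α‖ + ‖u * z 0‖ := norm_add_le _ _
        _ = _ := by rw [norm_mul, hu, one_mul]; rfl
    have h2 : ‖z0‖ ≤ R - 1 := by linarith
    linarith
  obtain ⟨n, hn⟩ := Nat.exists_eq_succ_of_ne_zero hn0
  rw [hn] at hfind
  have hlt : ‖α + u * z n‖ < R := by
    have := Nat.find_min hex (m := n) (by omega)
    push Not at this
    exact this
  set v : ℂ → ℂ := (phi r)^[n] with hv
  have hvU : UniH v := iter_uniH hr hcard n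
  have hv0 : v z0 = z n := rfl
  have hv1 : v z1 = z (n + 1) := by
    simp only [hv, hz]
    rw [Function.iterate_succ_apply, hphi]
  set s : ℝ := c0 * x with hs
  have hspos : 0 < s := by positivity
  have hs0 : s ≤ z0.re := hz0re
  have hs1 : s ≤ z1.re := by rw [hz1re, hs]; nlinarith
  have hlen : ‖z1 - z0‖ ≤ 3 * x := by
    calc _ ≤ ‖z1‖ + ‖z0‖ := norm_sub_le _ _
      _ ≤ _ := by linarith
  -- crossing point
  set γ : ℝ → ℂ := fun t => z0 + t * (z1 - z0) with hγ
  have hγseg : ∀ t ∈ Icc (0:ℝ) 1, γ t ∈ segment ℝ z0 z1 := by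
    intro t ht
    rw [segment_eq_image']
    exact ⟨t, ht, by simp [hγ]⟩
  have hconv : Convex ℝ {z : ℂ | s ≤ z.re} := convex_halfSpace_re_ge s
  have hseg : segment ℝ z0 z1 ⊆ {z : ℂ | s ≤ z.re} := hconv.segment_subset hs0 hs1
  have hsegH : ∀ p ∈ segment ℝ z0 z1, p ∈ H := fun p hp => lt_of_lt_of_le hspos (hseg hp)
  have hγc : Continuous γ := by rw [hγ]; fun_prop
  have hcont : ContinuousOn (fun t : ℝ => ‖α + u * v (γ t)‖) (Icc 0 1) := by
    intro t ht
    have h1 : ContinuousAt v (γ t) := (hvU.hasDerivAt (hsegH _ (hγseg t ht))).continuousAt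
    have h2 : ContinuousAt (fun t => v (γ t)) t := ContinuousAt.comp (f := γ) h1 hγc.continuousAt
    exact ((continuousAt_const.add (continuousAt_const.mul h2)).norm).continuousWithinAt
  have hγ0 : γ 0 = z0 := by simp [hγ]
  have hγ1 : γ 1 = z1 := by simp [hγ]
  have hmem : R ∈ Icc (‖α + u * v (γ 0)‖) (‖α + u * v (γ 1)‖) := by
    rw [hγ0, hγ1, hv0, hv1]
    exact ⟨hlt.le, hfind⟩
  obtain ⟨t, ht, hRt⟩ := intermediate_value_Icc zero_le_one hcont hmem
  have hRt2 : ‖α + u * v (γ t)‖ = R := hRt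
  have hpseg := hγseg t ht
  obtain ⟨p, hp⟩ : ∃ p, p = γ t := ⟨_, rfl⟩
  rw [← hp] at hpseg hRt2
  have hpn : ‖p‖ ≤ 3 / 2 * x := by
    have h1 : segment ℝ z0 z1 ⊆ closedBall 0 (3 / 2 * x) :=
      (convex_closedBall _ _).segment_subset (by simpa using hz0n) (by simpa using hz1n)
    simpa using h1 hpseg
  have hps : s ≤ p.re := hseg hpseg
  refine ⟨v p, hRt2, ?_⟩
  have hcover := hvU.cover hspos hps
  -- radius estimate
  set D := ‖deriv v p‖ with hD
  have hDpos : 0 < D := norm_pos_iff.2 (hvU.dne _ (hsegH _ hpseg))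
  have hdval : ∀ a ∈ segment ℝ z0 z1, ∀ b ∈ segment ℝ z0 z1, ‖v b - v a‖ ≤ 3 * x * E * D := by
    intro a ha b hb
    have := hvU.dist_val hspos hs0 hs1 hlen hpseg ha hb
    have h2 : 10000 / s * (3 * x) = 30000 / c0 := by
      rw [hs]; field_simp; norm_num
    rw [h2] at this
    exact this
  have hcardpos : (0:ℝ) < Fintype.card ι := by exact_mod_cast Fintype.card_pos
  have hcard1 : (1:ℝ) ≤ Fintype.card ι := by
    have : 1 ≤ Fintype.card ι := by omega
    exact_mod_cast this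
  have hR1 : 0 < R - 1 := by linarith
  have hkey : (R - 1) / (2 * Fintype.card ι) ≤ 3 * x * E * D := by
    by_cases hc : (R - 1) / 2 ≤ 3 * x * E * D
    · refine le_trans ?_ hc
      apply div_le_div_of_nonneg_left hR1.le (by norm_num)
      linarith
    · push Not at hc
      have h1 : ‖v z1 - v p‖ < (R - 1) / 2 :=
        (hdval p hpseg z1 (right_mem_segment ℝ z0 z1)).trans_lt hc
      rw [hv1] at h1
      have h2 : (R + 1) / 2 ≤ ‖α + u * z (n + 1)‖ := by
        have h3 : R ≤ ‖α + u * z (n+1)‖ + ‖z (n+1) - v p‖ := by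
          have h4 : α + u * v p = (α + u * z (n+1)) - u * (z (n+1) - v p) := by ring
          have h5 := norm_sub_le (α + u * z (n+1)) (u * (z (n+1) - v p))
          rw [← h4, norm_mul, hu, one_mul] at h5
          have h6 : ‖α + u * v p‖ = R := hRt2
          linarith
        linarith
      have h3 : ∀ i, (R - 1) / 2 ≤ ‖z (n+1) - r i‖ := by
        intro i
        have h4 : α + u * z (n+1) = (α + u * r i) + u * (z (n+1) - r i) := by ring
        have h5 := norm_add_le (α + u * r i) (u * (z (n+1) - r i))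
        rw [← h4, norm_mul, hu, one_mul] at h5
        have := hroots i
        linarith
      have h4 := norm_S_le (by linarith) h3
      have h5 : z (n+1) - z n = (S r (z (n+1)))⁻¹ := by
        have h6 := (phi_spec hr hcard (hzH n)).2
        have h7 : phi r (z n) = z (n+1) := by
          rw [hz]
          simp only
          rw [Function.iterate_succ_apply']
        rw [h7, N] at h6
        linear_combination h6
      have h6 := hdval z0 (left_mem_segment ℝ z0 z1) z1 (right_mem_segment ℝ z0 z1)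
      rw [hv1, hv0, h5, norm_inv] at h6
      refine le_trans ?_ h6
      have h8 : 0 < ‖S r (z (n+1))‖ := norm_pos_iff.2 (S_ne hr (hzH (n+1)))
      rw [le_inv_comm₀ (by positivity) h8]
      refine h4.trans (le_of_eq ?_)
      field_simp
  have hrad : c0 * (R - 1) / (96 * E) / Fintype.card ι ≤ s * D / 16 := by
    have h1 : s * D / 16 = c0 / (48 * E) * (3 * x * E * D) := by
      rw [hs]; field_simp; norm_num
    rw [h1]
    calc _ = c0 / (48 * E) * ((R - 1) / (2 * Fintype.card ι)) := by field_simp; norm_num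
      _ ≤ _ := by gcongr
  intro ζ hζ
  obtain ⟨ζ', hζ', hvζ⟩ := hcover (ball_subset_ball hrad hζ)
  refine ⟨n, x, ζ', hS, ball_sub_H hps hζ', ?_, hvζ⟩
  rw [mem_ball, dist_eq_norm] at hζ'
  have h1 : ‖ζ'‖ ≤ ‖ζ' - p‖ + ‖p‖ := by
    have : ζ' = (ζ' - p) + p := by ring
    conv_lhs => rw [this]
    exact norm_add_le _ _
  have h2 : s ≤ x := by rw [hs]; nlinarith
  linarith

end Helper70.Newton
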