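import Mathlib

open Complex Metric Set Filter Topology

namespace Helper70.Newton

/-- Supporting line of the convex hull of a finite set at a boundary point. -/
theorem exists_support {F : Set ℂ} (hF : F.Finite) {α : ℂ} (hα : α ∈ F)
    (hfr : α ∈ frontier (convexHull ℝ F)) :
    ∃ u : ℂ, ‖u‖ = 1 ∧ ∀ β ∈ F, (starRingEnd ℂ u * (β - α)).re ≤ 0 := by
  classical
  by_contra hcon
  push Not at hcon
  have hne : hF.toFinset.Nonempty := ⟨α, by simpa using hα⟩
  set m : ℂ → ℝ := fun u => hF.toFinset.sup' hne fun β => (starRingEnd ℂ u * (β - α)).re with hm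
  have hmc : Continuous m := by
    rw [hm]
    apply Continuous.finset_sup'_apply
    intro β _
    exact continuous_re.comp ((continuous_conj).mul continuous_const)
  have hK : IsCompact (sphere (0:ℂ) 1) := isCompact_sphere _ _
  have hKne : (sphere (0:ℂ) 1).Nonempty := ⟨1, by simp⟩
  obtain ⟨u0, hu0, hmin⟩ := hK.exists_isMinOn hKne hmc.continuousOn
  have hu0n : ‖u0‖ = 1 := by simpa using hu0
  obtain ⟨β0, hβ0, hβ0pos⟩ := hcon u0 hu0n
  have hm0 : 0 < m u0 := lt_of_lt_of_le hβ0pos
    (Finset.le_sup' (fun β => (starRingEnd ℂ u0 * (β - α)).re) (by simpa using hβ0))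
  -- the ball of radius m u0 is contained in the hull
  have hball : ball α (m u0) ⊆ convexHull ℝ F := by
    intro x hx
    by_contra hxn
    have hclosed : IsClosed (convexHull ℝ F) := hF.isClosed_convexHull ℝ
    obtain ⟨f, c, hfc, hcx⟩ := geometric_hahn_banach_closed_point (convex_convexHull ℝ F) hclosed hxn
    -- represent f
    obtain ⟨w, hw⟩ : ∃ w : ℂ, ∀ z, f z = (starRingEnd ℂ w * z).re := by
      refine ⟨(f 1 : ℂ) + f I * I, fun z => ?_⟩
      have hz : z = z.re • (1:ℂ) + z.im • I := by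
        apply Complex.ext <;> simp
      conv_lhs => rw [hz]
      rw [map_add, map_smul, map_smul]
      simp
      ring
    have hw0 : w ≠ 0 := by
      intro h
      have h1 := hfc α (subset_convexHull ℝ F hα)
      rw [hw, h] at h1 hcx
      simp at h1 hcx
      linarith
    have hwn : 0 < ‖w‖ := norm_pos_iff.2 hw0
    set u : ℂ := w / ‖w‖ with hu
    have hun : ‖u‖ = 1 := by
      rw [hu, norm_div, Complex.norm_real, norm_norm, div_self hwn.ne']
    have hwu : w = ‖w‖ * u := by
      rw [hu, mul_div_cancel₀]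
      exact_mod_cast hwn.ne'
    have hle : m u0 ≤ m u := hmin (by simpa using hun)
    obtain ⟨β, hβ, hβm⟩ := Finset.exists_mem_eq_sup' hne fun β => (starRingEnd ℂ u * (β - α)).re
    have hβF : β ∈ F := by simpa using hβ
    have hmu : m u = (starRingEnd ℂ u * (β - α)).re := hβm
    have h1 := hfc β (subset_convexHull ℝ F hβF)
    have h2 : f β < f x := h1.trans hcx
    have h3 : (starRingEnd ℂ u * (β - α)).re < (starRingEnd ℂ u * (x - α)).re := by
      have h4 : ‖w‖ * (starRingEnd ℂ u * (β - α)).re < ‖w‖ * (starRingEnd ℂ u * (x - α)).re := by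
        have e : ∀ z : ℂ, ‖w‖ * (starRingEnd ℂ u * (z - α)).re = f z - f α := by
          intro z
          rw [hw, hw, ← sub_re, ← mul_sub]
          conv_rhs => rw [hwu]
          rw [map_mul, conj_ofReal, mul_assoc, re_ofReal_mul]
        rw [e, e]
        linarith
      exact lt_of_mul_lt_mul_left h4 hwn.le
    have h5 : (starRingEnd ℂ u * (x - α)).re ≤ ‖x - α‖ := by
      refine (re_le_norm _).trans ?_
      rw [norm_mul, norm_conj, hun, one_mul]
    rw [mem_ball, dist_eq_norm] at hx
    linarith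
  have hint : α ∈ interior (convexHull ℝ F) :=
    mem_interior.2 ⟨ball α (m u0), hball, isOpen_ball, mem_ball_self hm0⟩
  exact hfr.2 hint

/-- equidistributed points are dense at scale `2πR/N` -/
theorem exists_near {R : ℝ} (hR : 0 < R) {N : ℕ} (hN : 0 < N) {w : ℂ} (hw : ‖w‖ = R) :
    ∃ j < N, ‖(R:ℂ) * exp (2 * Real.pi * I * j / N) - w‖ ≤ R * (2 * Real.pi / N) := by
  have hNr : (0:ℝ) < N := by exact_mod_cast hN
  have hpi := Real.pi_pos
  obtain ⟨θ, hθ0, hθ1, hθw⟩ : ∃ θ : ℝ, 0 ≤ θ ∧ θ < 2 * Real.pi ∧ w = R * exp (I * θ) := by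
    have h1 : w = R * exp (arg w * I) := by
      rw [← hw]; exact (norm_mul_exp_arg_mul_I w).symm
    by_cases hc : 0 ≤ arg w
    · refine ⟨arg w, hc, ?_, ?_⟩
      · have := arg_le_pi w
        linarith
      · rw [mul_comm I]; exact h1
    · push Not at hc
      refine ⟨arg w + 2 * Real.pi, ?_, by linarith, ?_⟩
      · have := neg_pi_lt_arg w
        linarith
      · rw [h1]
        have : I * ((arg w + 2 * Real.pi : ℝ) : ℂ) = arg w * I + 2 * Real.pi * I := by
          push_cast; ring
        rw [← h1, this, exp_add, exp_two_pi_mul_I, mul_one]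
        exact h1
  set j := ⌊θ * N / (2 * Real.pi)⌋₊ with hj
  have hq0 : 0 ≤ θ * N / (2 * Real.pi) := by positivity
  have hjle : (j:ℝ) ≤ θ * N / (2 * Real.pi) := Nat.floor_le hq0
  have hjlt : θ * N / (2 * Real.pi) < j + 1 := Nat.lt_floor_add_one _
  refine ⟨j, ?_, ?_⟩
  · rw [hj, Nat.floor_lt hq0]
    rw [div_lt_iff₀ (by positivity)]
    nlinarith
  · set φ : ℝ := 2 * Real.pi * j / N with hφ
    have e1 : exp (2 * Real.pi * I * j / N) = exp (I * φ) := by
      congr 1
      rw [hφ]
      push_cast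
      ring
    have e2 : exp (I * φ) = exp (I * θ) * exp (I * ((φ - θ : ℝ) : ℂ)) := by
      rw [← exp_add]
      congr 1
      push_cast
      ring
    rw [e1, hθw, e2]
    have e3 : (R:ℂ) * (exp (I * θ) * exp (I * ((φ - θ : ℝ) : ℂ))) - R * exp (I * θ) =
        R * exp (I * θ) * (exp (I * ((φ - θ : ℝ) : ℂ)) - 1) := by ring
    rw [e3, norm_mul, norm_mul, Complex.norm_real, Real.norm_of_nonneg hR.le,
      norm_exp_I_mul_ofReal, mul_one]
    apply mul_le_mul_of_nonneg_left _ hR.le
    refine (Real.norm_exp_I_mul_ofReal_sub_one_le).trans ?_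
    rw [Real.norm_eq_abs, abs_le]
    have h1 : φ ≤ θ := by
      rw [hφ, div_le_iff₀ hNr]
      rw [le_div_iff₀ (by positivity)] at hjle
      linarith
    have h2 : θ - φ ≤ 2 * Real.pi / N := by
      rw [hφ, le_div_iff₀ hNr, sub_mul, div_mul_cancel₀ _ hNr.ne']
      rw [div_lt_iff₀ (by positivity)] at hjlt
      linarith
    constructor
    · linarith
    · have : 0 ≤ 2 * Real.pi / N := by positivity
      linarith

end Helper70.Newton
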